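import Mathlib

set_option autoImplicit false

namespace Pool.Agent.Helper80.CRL

/-- the length of the shape `T_j` -/
def len (q : ℕ) : ℕ → ℕ
  | 0 => 2 * q
  | j + 1 => 2 * q + 3 * len q j

/-- the chains of `T_j` placed at offset `o`: `Chain q j o a b` means that the `q` opening
brackets at `a, a+1, ..` are matched with the `q` closing brackets at `b, b+1, ..`. -/
inductive Chain (q : ℕ) : ℕ → ℕ → ℕ → ℕ → Prop
  | zero (o : ℕ) : Chain q 0 o o (o + q)
  | top (j o : ℕ) : Chain q (j + 1) o o (o + q + 3 * len q j)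
  | sub0 (j o a b : ℕ) (h : Chain q j (o + q) a b) : Chain q (j + 1) o a b
  | sub1 (j o a b : ℕ) (h : Chain q j (o + q + len q j) a b) : Chain q (j + 1) o a b
  | sub2 (j o a b : ℕ) (h : Chain q j (o + q + 2 * len q j) a b) : Chain q (j + 1) o a b

lemma Chain.bounds {q j o a b : ℕ} (h : Chain q j o a b) :
    o ≤ a ∧ a + q ≤ b ∧ b + q ≤ o + len q j := by
  induction h with
  | zero o => simp [len]; omega
  | top j o => simp only [len]; omega
  | sub0 j o a b h ih => simp only [len]; omega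
  | sub1 j o a b h ih => simp only [len]; omega
  | sub2 j o a b h ih => simp only [len]; omega

open Classical in
/-- the boundaries of the set `S` inside `[a, b)` -/
noncomputable def bset (S : ℕ → Prop) (a b : ℕ) : Finset ℕ :=
  (Finset.range b).filter fun i => a ≤ i ∧ i + 1 < b ∧ ¬ (S i ↔ S (i + 1))

lemma mem_bset {S : ℕ → Prop} {a b i : ℕ} :
    i ∈ bset S a b ↔ a ≤ i ∧ i + 1 < b ∧ ¬ (S i ↔ S (i + 1)) := by
  classical
  unfold bset
  rw [Finset.mem_filter, Finset.mem_range]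
  constructor
  · rintro ⟨_, h⟩; exact h
  · intro h; exact ⟨by omega, h⟩

lemma exists_bd_aux {S : ℕ → Prop} (i k : ℕ) (h : ¬ (S i ↔ S (i + k))) :
    ∃ m, i ≤ m ∧ m < i + k ∧ ¬ (S m ↔ S (m + 1)) := by
  induction k with
  | zero => exact absurd Iff.rfl h
  | succ k ih =>
      by_cases h1 : S i ↔ S (i + k)
      · refine ⟨i + k, by omega, by omega, ?_⟩
        intro h2
        exact h (h1.trans h2)
      · obtain ⟨m, h2, h3, h4⟩ := ih h1
        exact ⟨m, h2, by omega, h4⟩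

lemma exists_bd {S : ℕ → Prop} {a b i i' : ℕ} (hi : a ≤ i) (hib : i < b) (hi' : a ≤ i')
    (hib' : i' < b) (h : S i) (h' : ¬ S i') : ∃ k, k ∈ bset S a b := by
  rcases le_total i i' with h1 | h1
  · obtain ⟨k, rfl⟩ := Nat.exists_eq_add_of_le h1
    obtain ⟨m, h2, h3, h4⟩ := exists_bd_aux (S := S) i k (by tauto)
    exact ⟨m, mem_bset.2 ⟨by omega, by omega, h4⟩⟩
  · obtain ⟨k, rfl⟩ := Nat.exists_eq_add_of_le h1
    obtain ⟨m, h2, h3, h4⟩ := exists_bd_aux (S := S) i' k (by tauto)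
    exact ⟨m, mem_bset.2 ⟨by omega, by omega, h4⟩⟩

lemma card_step {S : ℕ → Prop} {a b x y k n : ℕ} (h1 : a ≤ x) (h2 : y ≤ b)
    (hn : n ≤ (bset S x y).card) (hk : k ∈ bset S a b) (hkx : k < x ∨ y ≤ k + 1) :
    n + 1 ≤ (bset S a b).card := by
  classical
  have h3 : insert k (bset S x y) ⊆ bset S a b := by
    intro i hi
    rw [Finset.mem_insert] at hi
    rcases hi with rfl | hi
    · exact hk
    · rw [mem_bset] at hi ⊢
      exact ⟨by omega, by omega, hi.2.2⟩
  have h4 : k ∉ bset S x y := by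
    rw [mem_bset]; omega
  calc n + 1 ≤ (bset S x y).card + 1 := by omega
    _ = (insert k (bset S x y)).card := (Finset.card_insert_of_notMem h4).symm
    _ ≤ _ := Finset.card_le_card h3

lemma both_of_bset {S : ℕ → Prop} {a b n : ℕ} (h : n + 1 ≤ (bset S a b).card) :
    (∃ i, a ≤ i ∧ i < b ∧ S i) ∧ (∃ i, a ≤ i ∧ i < b ∧ ¬ S i) := by
  have h1 : 0 < (bset S a b).card := by omega
  obtain ⟨i, hi⟩ := Finset.card_pos.1 h1
  rw [mem_bset] at hi
  obtain ⟨h2, h3, h4⟩ := hi
  by_cases h5 : S i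
  · exact ⟨⟨i, h2, by omega, h5⟩, ⟨i + 1, by omega, h3, fun h6 => h4 ⟨fun _ => h6, fun _ => h5⟩⟩⟩
  · refine ⟨⟨i + 1, by omega, h3, ?_⟩, ⟨i, h2, by omega, h5⟩⟩
    by_contra h6
    exact h4 ⟨fun h => absurd h h5, fun h => absurd h h6⟩

/-- the combinatorial step at one time -/
lemma mid_step {q j o n : ℕ} {S : ℕ → Prop}
    (htop : ¬ ((∀ s < q, S (o + s)) ∧ ∀ s < q, ¬ S (o + q + 3 * len q j + s)) ∧
      ¬ ((∀ s < q, ¬ S (o + s)) ∧ ∀ s < q, S (o + q + 3 * len q j + s)))
    (x y z : ℕ) (hxyz : (x = 0 ∧ y = 1 ∧ z = 2) ∨ (x = 0 ∧ y = 2 ∧ z = 1) ∨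
      (x = 1 ∧ y = 0 ∧ z = 2) ∨ (x = 1 ∧ y = 2 ∧ z = 0) ∨ (x = 2 ∧ y = 0 ∧ z = 1) ∨
      (x = 2 ∧ y = 1 ∧ z = 0))
    (hx : ∃ i, o + q + x * len q j ≤ i ∧ i < o + q + x * len q j + len q j ∧ S i)
    (hz : ∃ i, o + q + z * len q j ≤ i ∧ i < o + q + z * len q j + len q j ∧ ¬ S i)
    (hy : n ≤ (bset S (o + q + y * len q j) (o + q + y * len q j + len q j)).card) :
    n + 1 ≤ (bset S o (o + len q (j + 1))).card := by
  obtain ⟨i, hi1, hi2, hi3⟩ := hx
  obtain ⟨i', hi1', hi2', hi3'⟩ := hz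
  have hlen : len q (j + 1) = 2 * q + 3 * len q j := rfl
  rw [hlen]
  set L := len q j with hL
  rcases hxyz with ⟨rfl, rfl, rfl⟩ | ⟨rfl, rfl, rfl⟩ | ⟨rfl, rfl, rfl⟩ | ⟨rfl, rfl, rfl⟩ |
    ⟨rfl, rfl, rfl⟩ | ⟨rfl, rfl, rfl⟩
  · -- exposed in copy 0, middle 1, unexposed in copy 2
    by_cases h1 : ∀ s < q, S (o + s)
    · by_cases h2 : ∀ s < q, ¬ S (o + q + 3 * L + s)
      · exact absurd ⟨h1, h2⟩ htop.1
      · push Not at h2
        obtain ⟨s, hs, h3⟩ := h2
        obtain ⟨k, hk⟩ := exists_bd (S := S) (a := o + q + 2 * L) (b := o + (2 * q + 3 * L))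
          (i := o + q + 3 * L + s) (i' := i') (by omega) (by omega) (by omega) (by omega) h3 hi3'
        rw [mem_bset] at hk
        refine card_step (by omega) (by omega) hy (k := k) ?_ (Or.inr (by omega))
        rw [mem_bset]; exact ⟨by omega, hk.2.1, hk.2.2⟩
    · push Not at h1
      obtain ⟨s, hs, h3⟩ := h1
      obtain ⟨k, hk⟩ := exists_bd (S := S) (a := o) (b := o + q + L)
        (i := i) (i' := o + s) (by omega) (by omega) (by omega) (by omega) hi3 h3
      rw [mem_bset] at hk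
      refine card_step (by omega) (by omega) hy (k := k) ?_ (Or.inl (by omega))
      rw [mem_bset]; exact ⟨by omega, by omega, hk.2.2⟩
  · obtain ⟨k, hk⟩ := exists_bd (S := S) (a := o + q) (b := o + q + 2 * L)
      (i := i) (i' := i') (by omega) (by omega) (by omega) (by omega) hi3 hi3'
    rw [mem_bset] at hk
    refine card_step (by omega) (by omega) hy (k := k) ?_ (Or.inl (by omega))
    rw [mem_bset]; exact ⟨by omega, by omega, hk.2.2⟩
  · obtain ⟨k, hk⟩ := exists_bd (S := S) (a := o + q + L) (b := o + q + 3 * L)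
      (i := i) (i' := i') (by omega) (by omega) (by omega) (by omega) hi3 hi3'
    rw [mem_bset] at hk
    refine card_step (by omega) (by omega) hy (k := k) ?_ (Or.inr (by omega))
    rw [mem_bset]; exact ⟨by omega, by omega, hk.2.2⟩
  · obtain ⟨k, hk⟩ := exists_bd (S := S) (a := o + q) (b := o + q + 2 * L)
      (i := i) (i' := i') (by omega) (by omega) (by omega) (by omega) hi3 hi3'
    rw [mem_bset] at hk
    refine card_step (by omega) (by omega) hy (k := k) ?_ (Or.inl (by omega))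
    rw [mem_bset]; exact ⟨by omega, by omega, hk.2.2⟩
  · obtain ⟨k, hk⟩ := exists_bd (S := S) (a := o + q + L) (b := o + q + 3 * L)
      (i := i) (i' := i') (by omega) (by omega) (by omega) (by omega) hi3 hi3'
    rw [mem_bset] at hk
    refine card_step (by omega) (by omega) hy (k := k) ?_ (Or.inr (by omega))
    rw [mem_bset]; exact ⟨by omega, by omega, hk.2.2⟩
  · -- exposed in copy 2, middle 1, unexposed in copy 0
    by_cases h1 : ∀ s < q, ¬ S (o + s)
    · by_cases h2 : ∀ s < q, S (o + q + 3 * L + s)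
      · exact absurd ⟨h1, h2⟩ htop.2
      · push Not at h2
        obtain ⟨s, hs, h3⟩ := h2
        obtain ⟨k, hk⟩ := exists_bd (S := S) (a := o + q + 2 * L) (b := o + (2 * q + 3 * L))
          (i := i) (i' := o + q + 3 * L + s) (by omega) (by omega) (by omega) (by omega) hi3 h3
        rw [mem_bset] at hk
        refine card_step (by omega) (by omega) hy (k := k) ?_ (Or.inr (by omega))
        rw [mem_bset]; exact ⟨by omega, hk.2.1, hk.2.2⟩
    · push Not at h1
      obtain ⟨s, hs, h3⟩ := h1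
      obtain ⟨k, hk⟩ := exists_bd (S := S) (a := o) (b := o + q + L)
        (i := o + s) (i' := i') (by omega) (by omega) (by omega) (by omega) h3 hi3'
      rw [mem_bset] at hk
      refine card_step (by omega) (by omega) hy (k := k) ?_ (Or.inl (by omega))
      rw [mem_bset]; exact ⟨by omega, by omega, hk.2.2⟩

/-- **The cut lemma.** -/
theorem exists_time {q c d T M : ℕ} (hc : c < 2 * q) (X : ℕ → ℕ → Prop)
    (hmono : ∀ t < T, ∀ i < M, X t i → X (t + 1) i)
    (h0 : ∀ i < M, ¬ X 0 i) (hT : ∀ i < M, X T i)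
    (hgrow : ∀ t < T, ∀ a b : ℕ, b ≤ M → (∀ i, a ≤ i → i < b → ¬ X t i ∧ X (t + 1) i) →
      b ≤ a + c)
    (hno : ∀ t ≤ T, ∀ a b : ℕ, Chain q d 0 a b →
      ¬ ((∀ s < q, X t (a + s)) ∧ ∀ s < q, ¬ X t (b + s)) ∧
      ¬ ((∀ s < q, ¬ X t (a + s)) ∧ ∀ s < q, X t (b + s))) :
    ∀ j o : ℕ, o + len q j ≤ M → (∀ a b, Chain q j o a b → Chain q d 0 a b) →
      ∃ t ≤ T, j + 1 ≤ (bset (X t) o (o + len q j)).card := by
  have hmono' : ∀ t t', t ≤ t' → t' ≤ T → ∀ i < M, X t i → X t' i := by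
    intro t t' h
    induction h with
    | refl => intro _ i _ h; exact h
    | step h ih => intro h1 i hi h2; exact hmono _ (by omega) i hi (ih (by omega) i hi h2)
  intro j
  induction j with
  | zero =>
      intro o hM _
      simp only [len] at hM ⊢
      have hP : ∃ t, ∃ i, o ≤ i ∧ i < o + 2 * q ∧ X t i := ⟨T, o, le_refl _, by omega, hT o (by omega)⟩
      classical
      set t := Nat.find hP with ht
      have h1 := Nat.find_spec hP
      rw [← ht] at h1
      obtain ⟨i, hi1, hi2, hi3⟩ := h1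
      have htT : t ≤ T := Nat.find_min' hP ⟨o, le_refl _, by omega, hT o (by omega)⟩
      have ht0 : t ≠ 0 := by
        intro h
        rw [h] at hi3
        exact h0 i (by omega) hi3
      obtain ⟨t', ht'⟩ := Nat.exists_eq_succ_of_ne_zero ht0
      have h2 : ∀ i, o ≤ i → i < o + 2 * q → ¬ X t' i := by
        intro i' h3 h4 h5
        exact Nat.find_min hP (m := t') (by omega) ⟨i', h3, h4, h5⟩
      have h3 : ∃ i', o ≤ i' ∧ i' < o + 2 * q ∧ ¬ X t i' := by
        by_contra hcon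
        push Not at hcon
        have := hgrow t' (by omega) o (o + 2 * q) hM (fun i' h4 h5 =>
          ⟨h2 i' h4 h5, by rw [ht'] at hcon; exact hcon i' h4 h5⟩)
        omega
      obtain ⟨i', h4, h5, h6⟩ := h3
      obtain ⟨k, hk⟩ := exists_bd hi1 hi2 h4 h5 hi3 h6
      exact ⟨t, htT, Finset.card_pos.2 ⟨k, hk⟩⟩
  | succ j ih =>
      intro o hM hch
      have hlen : len q (j + 1) = 2 * q + 3 * len q j := rfl
      have hM' : o + (2 * q + 3 * len q j) ≤ M := by rw [← hlen]; exact hM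
      set L := len q j with hL
      obtain ⟨t0, h0T, hb0⟩ := ih (o + q) (by omega) (fun a b h => hch a b (Chain.sub0 j o a b h))
      obtain ⟨t1, h1T, hb1⟩ := ih (o + q + L) (by omega)
        (fun a b h => hch a b (Chain.sub1 j o a b h))
      obtain ⟨t2, h2T, hb2⟩ := ih (o + q + 2 * L) (by omega)
        (fun a b h => hch a b (Chain.sub2 j o a b h))
      have e0 : o + q + 0 * len q j = o + q := by omega
      have e1 : o + q + 1 * len q j = o + q + L := by omega
      have hexp : ∀ (x t t' : ℕ), x < 3 → j + 1 ≤ (bset (X t) (o + q + x * L)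
          (o + q + x * L + L)).card → t ≤ t' → t' ≤ T →
          ∃ i, o + q + x * L ≤ i ∧ i < o + q + x * L + L ∧ X t' i := by
        intro x t t' hx h1 h2 h3
        obtain ⟨⟨i, h4, h5, h6⟩, _⟩ := both_of_bset h1
        have h7 : x * L ≤ 2 * L := Nat.mul_le_mul_right L (by omega)
        exact ⟨i, h4, h5, hmono' t t' h2 h3 i (by omega) h6⟩
      have hune : ∀ (x t t' : ℕ), x < 3 → j + 1 ≤ (bset (X t) (o + q + x * L)
          (o + q + x * L + L)).card → t' ≤ t → t ≤ T →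
          ∃ i, o + q + x * L ≤ i ∧ i < o + q + x * L + L ∧ ¬ X t' i := by
        intro x t t' hx h1 h2 h3
        obtain ⟨_, ⟨i, h4, h5, h6⟩⟩ := both_of_bset h1
        have h7 : x * L ≤ 2 * L := Nat.mul_le_mul_right L (by omega)
        exact ⟨i, h4, h5, fun h8 => h6 (hmono' t' t h2 h3 i (by omega) h8)⟩
      have b0 : j + 1 ≤ (bset (X t0) (o + q + 0 * L) (o + q + 0 * L + L)).card := by
        simpa using hb0
      have b1 : j + 1 ≤ (bset (X t1) (o + q + 1 * L) (o + q + 1 * L + L)).card := by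
        simpa using hb1
      have b2 : j + 1 ≤ (bset (X t2) (o + q + 2 * L) (o + q + 2 * L + L)).card := hb2
      have htop := fun t (ht : t ≤ T) => hno t ht _ _ (hch _ _ (Chain.top j o))
      rcases le_total t0 t1 with h01 | h01 <;> rcases le_total t1 t2 with h12 | h12 <;>
        rcases le_total t0 t2 with h02 | h02
      · exact ⟨t1, h1T, mid_step (htop t1 h1T) 0 1 2 (by omega)
          (hexp 0 t0 t1 (by omega) b0 h01 h1T) (hune 2 t2 t1 (by omega) b2 h12 h2T) b1⟩
      · exact ⟨t1, h1T, mid_step (htop t1 h1T) 0 1 2 (by omega)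
          (hexp 0 t0 t1 (by omega) b0 h01 h1T) (hune 2 t2 t1 (by omega) b2 h12 h2T) b1⟩
      · exact ⟨t2, h2T, mid_step (htop t2 h2T) 0 2 1 (by omega)
          (hexp 0 t0 t2 (by omega) b0 h02 h2T) (hune 1 t1 t2 (by omega) b1 h12 h1T) b2⟩
      · exact ⟨t0, h0T, mid_step (htop t0 h0T) 2 0 1 (by omega)
          (hexp 2 t2 t0 (by omega) b2 h02 h0T) (hune 1 t1 t0 (by omega) b1 h01 h1T) b0⟩
      · exact ⟨t0, h0T, mid_step (htop t0 h0T) 1 0 2 (by omega)
          (hexp 1 t1 t0 (by omega) b1 h01 h0T) (hune 2 t2 t0 (by omega) b2 h02 h2T) b0⟩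
      · exact ⟨t2, h2T, mid_step (htop t2 h2T) 1 2 0 (by omega)
          (hexp 1 t1 t2 (by omega) b1 h12 h2T) (hune 0 t0 t2 (by omega) b0 h02 h0T) b2⟩
      · exact ⟨t1, h1T, mid_step (htop t1 h1T) 2 1 0 (by omega)
          (hexp 2 t2 t1 (by omega) b2 h12 h1T) (hune 0 t0 t1 (by omega) b0 h01 h0T) b1⟩
      · exact ⟨t1, h1T, mid_step (htop t1 h1T) 2 1 0 (by omega)
          (hexp 2 t2 t1 (by omega) b2 h12 h1T) (hune 0 t0 t1 (by omega) b0 h01 h0T) b1⟩

end Pool.Agent.Helper80.CRL
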