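import Mathlib

set_option autoImplicit false

namespace Pool.Agent.Helper80.CRL

/-! ### String-rewriting systems and Church-Rosser languages -/

/-- One rewriting step of the string-rewriting system `R` on the alphabet `Γ`. -/
def Rewrites {Γ : Type} (R : Set (List Γ × List Γ)) (x y : List Γ) : Prop :=
  ∃ u v l r : List Γ, (l, r) ∈ R ∧ x = u ++ l ++ v ∧ y = u ++ r ++ v

/-- The reduction relation of `R`: the reflexive transitive closure of `Rewrites R`. -/
def Reduces {Γ : Type} (R : Set (List Γ × List Γ)) : List Γ → List Γ → Prop :=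
  Relation.ReflTransGen (Rewrites R)

/-- `x` is irreducible modulo `R`. -/
def Irreducible {Γ : Type} (R : Set (List Γ × List Γ)) (x : List Γ) : Prop :=
  ∀ y : List Γ, ¬ Rewrites R x y

/-- `R` is length-reducing. -/
def LengthReducing {Γ : Type} (R : Set (List Γ × List Γ)) : Prop :=
  ∀ p ∈ R, p.2.length < p.1.length

/-- `R` is confluent. -/
def Confluent {Γ : Type} (R : Set (List Γ × List Γ)) : Prop :=
  ∀ x y z : List Γ, Reduces R x y → Reduces R x z → ∃ w : List Γ, Reduces R y w ∧ Reduces R z w

/-- `L` is a Church-Rosser language over the finite alphabet `T`: there are a finite alphabet `Γ`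
properly containing (a copy of) `T`, a finite, length-reducing, confluent system `R` on `Γ`, words
`t₁, t₂` over `Γ ∖ T` and a letter `Y` in `Γ ∖ T`, all irreducible, such that `w` is in `L` if and
only if `t₁ w t₂` reduces to `Y`. -/
def IsChurchRosser {T : Type} (L : Set (List T)) : Prop :=
  ∃ (Γ : Type) (ι : T → Γ) (R : Set (List Γ × List Γ)) (t₁ t₂ : List Γ) (Y : Γ),
    Finite Γ ∧ Function.Injective ι ∧ ¬ Function.Surjective ι ∧
    R.Finite ∧ LengthReducing R ∧ Confluent R ∧
    (∀ g ∈ t₁, g ∉ Set.range ι) ∧ (∀ g ∈ t₂, g ∉ Set.range ι) ∧ Y ∉ Set.range ι ∧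
    Irreducible R t₁ ∧ Irreducible R t₂ ∧ Irreducible R [Y] ∧
    ∀ w : List T, w ∈ L ↔ Reduces R (t₁ ++ w.map ι ++ t₂) [Y]

/-! ### Programmed grammars -/

/-- A programmed grammar with terminal alphabet `T`: finitely many nonterminals `N`, a start
symbol, and finitely many labelled rules `(r : lhs r → rhs r, succ r, fail r)`. -/
structure ProgrammedGrammar (T : Type) where
  /-- the nonterminals -/
  N : Type
  finN : Finite N
  /-- the labels of the rules -/
  Label : Type
  finLabel : Finite Label
  /-- the start symbol -/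
  start : N
  /-- the left side of a rule -/
  lhs : Label → N
  /-- the right side of a rule -/
  rhs : Label → List (N ⊕ T)
  /-- the success field of a rule -/
  succ : Label → Set Label
  /-- the failure field of a rule -/
  fail : Label → Set Label

namespace ProgrammedGrammar

variable {T : Type}

/-- `(x, r) ⇒ (y, r')`: the rule `r` is applied to one occurrence of its left side and `r'` is in
the success field, or its left side does not occur, `y = x` and `r'` is in the failure field. -/
def Step (G : ProgrammedGrammar T) (p p' : List (G.N ⊕ T) × G.Label) : Prop :=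
  (∃ u v : List (G.N ⊕ T), p.1 = u ++ [Sum.inl (G.lhs p.2)] ++ v ∧
      p'.1 = u ++ G.rhs p.2 ++ v ∧ p'.2 ∈ G.succ p.2) ∨
    (Sum.inl (G.lhs p.2) ∉ p.1 ∧ p'.1 = p.1 ∧ p'.2 ∈ G.fail p.2)

/-- The language generated by `G`. -/
def language (G : ProgrammedGrammar T) : Set (List T) :=
  {z | ∃ r r' : G.Label,
    Relation.ReflTransGen G.Step ([Sum.inl G.start], r) (z.map Sum.inr, r')}

/-- `G` has no erasing rules. -/
def NonErasing (G : ProgrammedGrammar T) : Prop :=
  ∀ r : G.Label, G.rhs r ≠ []

end ProgrammedGrammar

end Pool.Agent.Helper80.CRL
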