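import Mathlib
import Pool.Agent.Helper80.CRL.Defs

set_option autoImplicit false

namespace Pool.Agent.Helper80.CRL

open Relation

variable {T : Type}

/-- An item of an arrangement: an occurrence of a nonterminal with its yield, or a terminal. -/
abbrev Item (G : ProgrammedGrammar T) := (G.N × List T) ⊕ T

variable {G : ProgrammedGrammar T}

/-- the sentential form of an arrangement -/
def form (l : List (Item G)) : List (G.N ⊕ T) := l.map (Sum.map Prod.fst id)

/-- the word generated by an arrangement -/
def flat (l : List (Item G)) : List T := l.flatMap (Sum.elim Prod.snd (fun t => [t]))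

/-- the holes of an arrangement -/
def holes (l : List (Item G)) : List (G.N × List T) :=
  l.filterMap (Sum.elim some (fun _ => none))

@[simp] lemma form_nil : form ([] : List (Item G)) = [] := rfl
@[simp] lemma flat_nil : flat ([] : List (Item G)) = [] := rfl
@[simp] lemma holes_nil : holes ([] : List (Item G)) = [] := rfl

@[simp] lemma form_append (a b : List (Item G)) : form (a ++ b) = form a ++ form b := by
  simp [form]

@[simp] lemma flat_append (a b : List (Item G)) : flat (a ++ b) = flat a ++ flat b := by
  simp [flat]

@[simp] lemma holes_append (a b : List (Item G)) : holes (a ++ b) = holes a ++ holes b := by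
  simp [holes]

@[simp] lemma form_hole (x : G.N × List T) (l : List (Item G)) :
    form (Sum.inl x :: l) = Sum.inl x.1 :: form l := by simp [form]

@[simp] lemma form_term (t : T) (l : List (Item G)) :
    form (Sum.inr t :: l) = Sum.inr t :: form l := by simp [form]

@[simp] lemma flat_hole (x : G.N × List T) (l : List (Item G)) :
    flat (Sum.inl x :: l) = x.2 ++ flat l := by simp [flat]

@[simp] lemma flat_term (t : T) (l : List (Item G)) :
    flat (Sum.inr t :: l) = t :: flat l := by simp [flat]

@[simp] lemma holes_hole (x : G.N × List T) (l : List (Item G)) :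
    holes (Sum.inl x :: l) = x :: holes l := by simp [holes]

@[simp] lemma holes_term (t : T) (l : List (Item G)) :
    holes (Sum.inr t :: l) = holes l := rfl

lemma form_map_inr (z : List T) : form (z.map Sum.inr : List (Item G)) = z.map Sum.inr := by
  simp [form, Function.comp_def]

lemma flat_map_inr (z : List T) : flat (z.map Sum.inr : List (Item G)) = z := by
  induction z with
  | nil => rfl
  | cons a z ih => simp [ih]

lemma holes_map_inr (z : List T) : holes (z.map Sum.inr : List (Item G)) = [] := by
  induction z with
  | nil => rfl
  | cons a z ih => simp [ih]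

/-- One step on arrangements. -/
inductive TStep : List (Item G) × G.Label → List (Item G) × G.Label → Prop
  | expand (u v w : List (Item G)) (r r' : G.Label) (hw : form w = G.rhs r)
      (hr : r' ∈ G.succ r) :
      TStep (u ++ Sum.inl (G.lhs r, flat w) :: v, r) (u ++ w ++ v, r')
  | skip (l : List (Item G)) (r r' : G.Label) (hl : Sum.inl (G.lhs r) ∉ form l)
      (hr : r' ∈ G.fail r) : TStep (l, r) (l, r')

lemma TStep.step {p q : List (Item G) × G.Label} (h : TStep p q) :
    G.Step (form p.1, p.2) (form q.1, q.2) := by
  cases h with
  | expand u v w r r' hw hr =>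
      left
      exact ⟨form u, form v, by simp, by simp [hw], hr⟩
  | skip l r r' hl hr =>
      right
      exact ⟨hl, rfl, hr⟩

lemma TStep.flat_eq {p q : List (Item G) × G.Label} (h : TStep p q) :
    flat q.1 = flat p.1 := by
  cases h with
  | expand u v w r r' hw hr => simp
  | skip l r r' hl hr => rfl

lemma form_eq_append {l : List (Item G)} {u v : List (G.N ⊕ T)} (h : form l = u ++ v) :
    ∃ a b, l = a ++ b ∧ form a = u ∧ form b = v := by
  unfold form at h ⊢
  obtain ⟨a, b, h1, h2, h3⟩ := List.map_eq_append_iff.1 h
  exact ⟨a, b, h1, h2, h3⟩

/-- lifting a derivation to arrangements -/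
lemma lift_aux {p q : List (G.N ⊕ T) × G.Label} (h : ReflTransGen G.Step p q) :
    ∀ (z : List T), q.1 = z.map Sum.inr →
    ∃ l : List (Item G), form l = p.1 ∧ flat l = z ∧
      ReflTransGen TStep (l, p.2) (z.map Sum.inr, q.2) := by
  induction h using ReflTransGen.head_induction_on with
  | refl =>
      intro z hz
      exact ⟨z.map Sum.inr, by rw [form_map_inr, hz], flat_map_inr z, ReflTransGen.refl⟩
  | head h1 h2 ih =>
      rename_i a c
      intro z hz
      obtain ⟨l, hl1, hl2, hl3⟩ := ih z hz
      rcases h1 with ⟨u, v, ha, hc, hr⟩ | ⟨hn, hc, hr⟩
      · rw [hc] at hl1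
        obtain ⟨l1, lv, e1, e2, e3⟩ := form_eq_append hl1
        obtain ⟨lu, lw, e4, e5, e6⟩ := form_eq_append e2
        refine ⟨lu ++ Sum.inl (G.lhs a.2, flat lw) :: lv, ?_, ?_, ?_⟩
        · rw [ha]; simp [e5, e3]
        · rw [← hl2, e1, e4]; simp
        · refine ReflTransGen.head ?_ hl3
          rw [e1, e4]
          exact TStep.expand lu lv lw a.2 c.2 e6 hr
      · refine ⟨l, by rw [hl1, hc], hl2, ReflTransGen.head ?_ hl3⟩
        exact TStep.skip l a.2 c.2 (by rw [hl1, hc]; exact hn) hr

lemma holes_eq_nil {l : List (Item G)} (h : holes l = []) : form l = (flat l).map Sum.inr := by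
  induction l with
  | nil => rfl
  | cons a l ih =>
      cases a with
      | inl x => simp at h
      | inr t => simp at h; simp [ih h]

lemma mem_holes_split {l : List (Item G)} {x : G.N × List T} (h : x ∈ holes l) :
    ∃ u v, l = u ++ Sum.inl x :: v := by
  induction l with
  | nil => simp at h
  | cons a l ih =>
      cases a with
      | inl y =>
          simp only [holes_hole, List.mem_cons] at h
          rcases h with h | h
          · exact ⟨[], l, by simp [h]⟩
          · obtain ⟨u, v, e⟩ := ih h
            exact ⟨Sum.inl y :: u, v, by simp [e]⟩
      | inr t =>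
          simp only [holes_term] at h
          obtain ⟨u, v, e⟩ := ih h
          exact ⟨Sum.inr t :: u, v, by simp [e]⟩

lemma inl_mem_form {l : List (Item G)} {A : G.N} :
    Sum.inl A ∈ form l ↔ ∃ u, (A, u) ∈ holes l := by
  induction l with
  | nil => simp
  | cons a l ih =>
      cases a with
      | inl y =>
          simp only [form_hole, List.mem_cons, holes_hole, ih, Sum.inl.injEq]
          constructor
          · rintro (h | ⟨u, h⟩)
            · exact ⟨y.2, Or.inl (by rw [h])⟩
            · exact ⟨u, Or.inr h⟩
          · rintro ⟨u, h | h⟩
            · exact Or.inl (by rw [← h])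
            · exact Or.inr ⟨u, h⟩
      | inr t => simp [ih]

/-- transferring a future to another arrangement with the same holes -/
lemma transfer {p q : List (Item G) × G.Label} (h : ReflTransGen TStep p q) :
    holes q.1 = [] → ∀ l : List (Item G), (holes l).Perm (holes p.1) →
    ReflTransGen G.Step (form l, p.2) ((flat l).map Sum.inr, q.2) := by
  induction h using ReflTransGen.head_induction_on with
  | refl =>
      intro hq l hl
      rw [hq] at hl
      rw [holes_eq_nil (List.perm_nil.1 hl)]
  | head h1 h2 ih =>
      intro hq l hl
      cases h1 with
      | expand u v w r r' hw hr =>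
          have hm : (G.lhs r, flat w) ∈ holes l := by
            rw [hl.mem_iff]; simp
          obtain ⟨u', v', e⟩ := mem_holes_split hm
          have hp : (holes u' ++ holes v').Perm (holes u ++ holes v) := by
            rw [e] at hl
            simp only [holes_append, holes_hole] at hl
            have h3 := List.perm_middle.symm.trans (hl.trans List.perm_middle)
            exact (List.perm_cons _).1 h3
          have h4 : (holes (u' ++ w ++ v')).Perm (holes (u ++ w ++ v)) := by
            simp only [holes_append]
            refine (List.perm_append_comm.append_right _).trans ?_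
            refine List.Perm.trans ?_ (List.perm_append_comm.append_right _)
            rw [List.append_assoc, List.append_assoc]
            exact hp.append_left _
          have h5 := ih hq (u' ++ w ++ v') h4
          refine ReflTransGen.head ?_ (b := (form (u' ++ w ++ v'), r')) ?_
          · left
            exact ⟨form u', form v', by simp [e], by simp [hw], hr⟩
          · have : flat (u' ++ w ++ v') = flat l := by rw [e]; simp
            rw [this] at h5
            exact h5
      | skip l' r r' hl' hr =>
          have h5 := ih hq l hl
          refine ReflTransGen.head ?_ h5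
          right
          refine ⟨?_, rfl, hr⟩
          intro hc
          apply hl'
          rw [inl_mem_form] at hc ⊢
          obtain ⟨u, hu⟩ := hc
          exact ⟨u, (hl.mem_iff).1 hu⟩

lemma TStep.perm_nil {z : List T} {r : G.Label} :
    holes ((z.map Sum.inr, r) : List (Item G) × G.Label).1 = [] := holes_map_inr z

/-- The sequence of arrangements of a derivation. -/
theorem exists_seq {x : List T} (hx : x ∈ G.language) :
    ∃ (n : ℕ) (f : ℕ → List (Item G) × G.Label),
      (f 0).1 = [Sum.inl (G.start, x)] ∧ (f n).1 = x.map Sum.inr ∧
      (∀ i < n, TStep (f i) (f (i + 1))) := by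
  obtain ⟨r, r', h⟩ := hx
  obtain ⟨l, h1, h2, h3⟩ := lift_aux h x rfl
  have hl : l = [Sum.inl (G.start, x)] := by
    cases l with
    | nil => simp at h1
    | cons a l =>
        cases a with
        | inl y =>
            simp only [form_hole, List.cons.injEq, Sum.inl.injEq] at h1
            have hl : l = [] := by
              have := h1.2
              unfold form at this
              simpa using this
            subst hl
            simp only [flat_hole, flat_nil, List.append_nil] at h2
            rw [← h1.1, ← h2]
        | inr t => simp at h1
  rw [hl] at h3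
  have key : ∀ p q : List (Item G) × G.Label, ReflTransGen TStep p q →
      ∃ (n : ℕ) (f : ℕ → List (Item G) × G.Label), f 0 = p ∧ f n = q ∧
        ∀ i < n, TStep (f i) (f (i + 1)) := by
    intro p q hpq
    induction hpq with
    | refl => exact ⟨0, fun _ => p, rfl, rfl, fun i hi => absurd hi (by omega)⟩
    | tail h1 h2 ih =>
        rename_i b c
        obtain ⟨n, f, e1, e2, e3⟩ := ih
        refine ⟨n + 1, fun i => if i ≤ n then f i else c, by simp [e1], by simp, ?_⟩
        intro i hi
        by_cases hin : i < n
        · have h4 : i ≤ n := by omega
          have h5 : i + 1 ≤ n := by omega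
          simp only [h4, h5, if_true]
          exact e3 i hin
        · have h4 : i = n := by omega
          subst h4
          simp only [le_refl, if_true, Nat.not_succ_le_self, if_false, e2]
          exact h2
  obtain ⟨n, f, e1, e2, e3⟩ := key _ _ h3
  exact ⟨n, f, by rw [e1], by rw [e2], e3⟩

/-- Every state of a sequence is reachable. -/
lemma reach_of_seq {x : List T} {n : ℕ} {f : ℕ → List (Item G) × G.Label}
    (h0 : (f 0).1 = [Sum.inl (G.start, x)]) (hs : ∀ i < n, TStep (f i) (f (i + 1))) (i : ℕ)
    (hi : i ≤ n) :
    ReflTransGen G.Step ([Sum.inl G.start], (f 0).2) (form (f i).1, (f i).2) := by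
  induction i with
  | zero => rw [h0]; simp only [form_hole, form_nil]; exact ReflTransGen.refl
  | succ i ih => exact (ih (by omega)).tail (hs i (by omega)).step

lemma future_of_seq {n : ℕ} {f : ℕ → List (Item G) × G.Label}
    (hs : ∀ i < n, TStep (f i) (f (i + 1))) (i : ℕ) (hi : i ≤ n) :
    ReflTransGen TStep (f i) (f n) := by
  obtain ⟨k, rfl⟩ := Nat.exists_eq_add_of_le hi
  clear hi
  induction k generalizing i with
  | zero => exact ReflTransGen.refl
  | succ k ih =>
      have h1 : TStep (f i) (f (i + 1)) := hs i (by omega)
      have h2 := ih (i + 1) (fun j hj => hs j (by omega))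
      rw [show i + 1 + k = i + (k + 1) by omega] at h2
      exact ReflTransGen.head h1 h2

/-- The mixing principle: the past of one derivation and the future of another one. -/
theorem mix {r₀ r r₁ : G.Label} {l l' l'' : List (Item G)} {z' : List T}
    (hpast : ReflTransGen G.Step ([Sum.inl G.start], r₀) (form l, r))
    (hfut : ReflTransGen TStep (l', r) (z'.map Sum.inr, r₁))
    (h1 : form l'' = form l) (h2 : (holes l'').Perm (holes l')) :
    flat l'' ∈ G.language := by
  refine ⟨r₀, r₁, hpast.trans ?_⟩
  have := transfer hfut (holes_map_inr z') l'' h2
  rw [h1] at this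
  exact this

end Pool.Agent.Helper80.CRL
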