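import Mathlib
import Pool.Agent.Helper80.CRL.Defs

set_option autoImplicit false

namespace Pool.Agent.Helper80.CRL

/-- The terminal alphabet: `none` is the letter `e`, `some (true, b)` is the opening bracket of
type `b` and `some (false, b)` the closing bracket of type `b`. -/
abbrev Sym := Option (Bool × Bool)

/-- Run a stack on a word of brackets. -/
def run : List Bool → List (Bool × Bool) → Option (List Bool)
  | s, [] => some s
  | s, (true, b) :: w => run (b :: s) w
  | [], (false, _) :: _ => none
  | c :: s, (false, b) :: w => if c = b then run s w else none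

/-- The word `e^{p₁} y₁ e^{p₂} y₂ ...` for the list `(p₁, y₁), (p₂, y₂), ...`. -/
def word : List (ℕ × (Bool × Bool)) → List Sym
  | [] => []
  | (p, y) :: l => List.replicate p none ++ some y :: word l

/-- The language: words `e^{p₁} y₁ ... e^{p_M} y_M`, `M ≥ 1`, where `p_{i+1} = p_i + 1`, all `p_i`
have the same number of digits in base `4`, and `y₁ ... y_M` is a correct bracket expression. -/
def Lang : Set (List Sym) :=
  {w | ∃ l : List (ℕ × (Bool × Bool)), l ≠ [] ∧ w = word l ∧
    List.IsChain (fun a b => b.1 = a.1 + 1) l ∧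
    (∃ m : ℕ, ∀ a ∈ l, 4 ^ m ≤ a.1 ∧ a.1 < 4 ^ (m + 1)) ∧
    run [] (l.map Prod.snd) = some []}

end Pool.Agent.Helper80.CRL
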