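import Mathlib
import Pool.Agent.Helper80.CRL.Lang
import Pool.Agent.Helper80.CRL.Grammar

set_option autoImplicit false

namespace Pool.Agent.Helper80.CRL

open Relation

/-- the brackets of a word -/
def ys (u : List Sym) : List (Bool × Bool) := u.filterMap id

/-- the pattern of a word: which letters are brackets -/
def pat (u : List Sym) : List Bool := u.map Option.isSome

@[simp] lemma ys_nil : ys [] = [] := rfl
@[simp] lemma ys_append (u v : List Sym) : ys (u ++ v) = ys u ++ ys v := by simp [ys]
@[simp] lemma ys_none (u : List Sym) : ys (none :: u) = ys u := by simp [ys]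
@[simp] lemma ys_some (a : Bool × Bool) (u : List Sym) : ys (some a :: u) = a :: ys u := by
  simp [ys]
@[simp] lemma pat_append (u v : List Sym) : pat (u ++ v) = pat u ++ pat v := by simp [pat]
@[simp] lemma pat_length (u : List Sym) : (pat u).length = u.length := by simp [pat]

lemma ys_length (u : List Sym) : (ys u).length = (pat u).count true := by
  induction u with
  | nil => rfl
  | cons a u ih =>
      cases a with
      | none => simpa [ys, pat] using ih
      | some b => simpa [ys, pat] using ih

/-- pattern with prescribed gaps -/
def patN : List ℕ → List Bool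
  | [] => []
  | p :: ps => List.replicate p false ++ true :: patN ps

lemma pat_word (l : List (ℕ × (Bool × Bool))) : pat (word l) = patN (l.map Prod.fst) := by
  induction l with
  | nil => rfl
  | cons a l ih =>
      obtain ⟨p, y⟩ := a
      simp [word, patN, pat] at ih ⊢
      exact ih

lemma ys_replicate (p : ℕ) : ys (List.replicate p none) = [] := by
  induction p with
  | zero => rfl
  | succ p ih => simp [List.replicate_succ, ih]

lemma ys_word (l : List (ℕ × (Bool × Bool))) : ys (word l) = l.map Prod.snd := by
  induction l with
  | nil => rfl
  | cons a l ih =>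
      obtain ⟨p, y⟩ := a
      simp [word, ys_replicate, ih]

lemma length_word (l : List (ℕ × (Bool × Bool))) :
    (word l).length = (l.map Prod.fst).sum + l.length := by
  induction l with
  | nil => rfl
  | cons a l ih =>
      obtain ⟨p, y⟩ := a
      simp [word, ih]
      omega

lemma fst_eq_range' : ∀ (l : List (ℕ × (Bool × Bool))) (p : ℕ) (y : Bool × Bool),
    List.IsChain (fun a b => b.1 = a.1 + 1) ((p, y) :: l) →
    ((p, y) :: l).map Prod.fst = List.range' p (l.length + 1)
  | [], p, y, _ => by simp
  | (p', y') :: l, p, y, h => by
      rw [List.isChain_cons_cons] at h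
      have h1 := fst_eq_range' l p' y' h.2
      have h2 : p' = p + 1 := h.1
      subst h2
      rw [List.map_cons, h1]
      simp [List.range'_succ]

lemma sum_range'_add (p d M : ℕ) :
    (List.range' (p + d) M).sum = (List.range' p M).sum + M * d := by
  induction M generalizing p with
  | zero => simp
  | succ M ih =>
      have h1 := ih (p + 1)
      rw [List.range'_succ, List.range'_succ, List.sum_cons, List.sum_cons,
        show p + d + 1 = p + 1 + d by omega, h1]
      ring

lemma skel_eq {w w' : List Sym} (hw : w ∈ Lang) (hw' : w' ∈ Lang)
    (h1 : w.length = w'.length) (h2 : (ys w).length = (ys w').length) :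
    pat w = pat w' ∧ ∃ ps : List ℕ, ps.Nodup ∧ pat w = patN ps := by
  obtain ⟨l, hl, rfl, hc, -, -⟩ := hw
  obtain ⟨l', hl', rfl, hc', -, -⟩ := hw'
  cases l with
  | nil => exact absurd rfl hl
  | cons a l =>
      cases l' with
      | nil => exact absurd rfl hl'
      | cons a' l' =>
          obtain ⟨p, y⟩ := a
          obtain ⟨p', y'⟩ := a'
          have e1 := fst_eq_range' l p y hc
          have e2 := fst_eq_range' l' p' y' hc'
          rw [ys_word, ys_word] at h2
          simp only [List.map_cons, List.length_cons, List.length_map,
            Nat.add_right_cancel_iff] at h2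
          rw [length_word, length_word, e1, e2, h2] at h1
          simp only [List.length_cons, h2] at h1
          have h3 : p = p' := by
            rcases le_total p p' with h | h
            · obtain ⟨d, rfl⟩ := Nat.exists_eq_add_of_le h
              rw [sum_range'_add] at h1
              have : (l'.length + 1) * d = 0 := by omega
              rcases Nat.mul_eq_zero.1 this with h4 | h4 <;> omega
            · obtain ⟨d, rfl⟩ := Nat.exists_eq_add_of_le h
              rw [sum_range'_add] at h1
              have : (l'.length + 1) * d = 0 := by omega
              rcases Nat.mul_eq_zero.1 this with h4 | h4 <;> omega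
          subst h3
          refine ⟨by rw [pat_word, pat_word, e1, e2, h2], List.range' p (l.length + 1),
            List.nodup_range', by rw [pat_word, e1]⟩

lemma patN_split : ∀ (ps : List ℕ) (A R : List Bool), patN ps = A ++ true :: R →
    ∃ k, k < ps.length ∧ A ++ [true] = patN (ps.take (k + 1)) ∧ R = patN (ps.drop (k + 1))
  | [], A, R, h => by simp [patN] at h
  | p :: ps, A, R, h => by
      unfold patN at h
      rcases List.append_eq_append_iff.1 h with ⟨B, h1, h2⟩ | ⟨B, h1, h2⟩
      · cases B with
        | nil =>
            simp only [List.nil_append, List.cons.injEq, true_and] at h2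
            simp only [List.append_nil] at h1
            exact ⟨0, by simp, by simp [patN, h1], by simp [h2]⟩
        | cons b B =>
            simp only [List.cons_append, List.cons.injEq] at h2
            obtain ⟨h3, h4⟩ := h2
            obtain ⟨k, hk, e1, e2⟩ := patN_split ps B R h4
            refine ⟨k + 1, by simpa using hk, ?_, by simpa using e2⟩
            rw [h1, ← h3]
            simp only [List.append_assoc, List.cons_append, List.take_succ_cons, patN]
            rw [e1]
      · cases B with
        | nil =>
            simp only [List.nil_append, List.cons.injEq, true_and] at h2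
            simp only [List.append_nil] at h1
            exact ⟨0, by simp, by simp [patN, h1], by simp [h2]⟩
        | cons b B =>
            exfalso
            simp only [List.cons_append, List.cons.injEq] at h2
            have : true ∈ List.replicate p false := by
              rw [h1, ← h2.1]; simp
            simp at this

lemma patN_head : ∀ (qs : List ℕ) (g : ℕ) (R : List Bool),
    patN qs = List.replicate g false ++ true :: R → qs[0]? = some g
  | [], g, R, h => by simp [patN] at h
  | p :: ps, g, R, h => by
      unfold patN at h
      have h1 : p = g := by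
        rcases lt_trichotomy p g with h2 | h2 | h2
        · exfalso
          have h3 := congrArg (fun l : List Bool => l[p]?) h
          simp [List.getElem?_append, h2] at h3
        · exact h2
        · exfalso
          have h3 := congrArg (fun l : List Bool => l[g]?) h
          simp [List.getElem?_append, h2] at h3
      simp [h1]

lemma two_true : ∀ (u : List Bool), 2 ≤ u.count true →
    ∃ (u₁ u₂ : List Bool) (g : ℕ), u = u₁ ++ true :: (List.replicate g false ++ true :: u₂)
  | [], h => by simp at h
  | false :: u, h => by
      obtain ⟨u₁, u₂, g, e⟩ := two_true u (by simpa using h)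
      exact ⟨false :: u₁, u₂, g, by simp [e]⟩
  | true :: u, h => by
      have h1 : true ∈ u := by
        rw [← List.count_pos_iff]
        rw [List.count_cons_self] at h
        omega
      have key : ∀ v : List Bool, true ∈ v → ∃ (g : ℕ) (w : List Bool),
          v = List.replicate g false ++ true :: w := by
        intro v
        induction v with
        | nil => intro hv; simp at hv
        | cons b v ih =>
            intro hv
            cases b with
            | true => exact ⟨0, v, by simp⟩
            | false =>
                obtain ⟨g, w, e⟩ := ih (by simpa using hv)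
                exact ⟨g + 1, w, by simp [List.replicate_succ, e]⟩
      obtain ⟨g, w, e⟩ := key u h1
      exact ⟨[], w, g, by simp [e]⟩

theorem no_swap {a U b V c : List Sym} (hx : a ++ U ++ b ++ V ++ c ∈ Lang)
    (hz : a ++ V ++ b ++ U ++ c ∈ Lang) (hU : 2 ≤ (ys U).length) (hV : V ≠ []) : False := by
  obtain ⟨h1, ps, hps, h2⟩ := skel_eq hx hz (by simp; omega) (by simp; omega)
  rw [ys_length] at hU
  obtain ⟨u₁, u₂, g, e⟩ := two_true (pat U) hU
  have e1 : patN ps = (pat a ++ u₁) ++ true :: (List.replicate g false ++ true ::
      (u₂ ++ pat b ++ pat V ++ pat c)) := by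
    rw [← h2]; simp [e]
  have e2 : patN ps = (pat a ++ pat V ++ pat b ++ u₁) ++ true :: (List.replicate g false ++
      true :: (u₂ ++ pat c)) := by
    rw [← h2, h1]; simp [e]
  obtain ⟨k, hk, f1, f2⟩ := patN_split ps _ _ e1
  obtain ⟨k', hk', f3, f4⟩ := patN_split ps _ _ e2
  have g1 := patN_head _ _ _ f2.symm
  have g2 := patN_head _ _ _ f4.symm
  rw [List.getElem?_drop] at g1 g2
  obtain ⟨b1, c1⟩ := List.getElem?_eq_some_iff.1 g1
  obtain ⟨b2, c2⟩ := List.getElem?_eq_some_iff.1 g2
  have h3 : k + 1 + 0 = k' + 1 + 0 := (hps.getElem_inj_iff).1 (c1.trans c2.symm)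
  have h4 : k = k' := by omega
  subst h4
  have h5 := congrArg List.length (f1.trans f3.symm)
  simp at h5
  have h6 : V.length = 0 := by omega
  exact hV (List.length_eq_zero_iff.1 h6)

section

variable {G : ProgrammedGrammar Sym}

lemma yield_ne_nil (hG : G.NonErasing) {p q : List (Item G) × G.Label}
    (h : ReflTransGen TStep p q) (hq : holes q.1 = []) : ∀ x ∈ holes p.1, x.2 ≠ [] := by
  induction h using ReflTransGen.head_induction_on with
  | refl => intro x hx; rw [hq] at hx; simp at hx
  | head h1 h2 ih =>
      cases h1 with
      | expand u v w r r' hw hr =>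
          have hw' : w ≠ [] := by
            rintro rfl
            exact hG r (by rw [← hw]; rfl)
          have hflat : flat w ≠ [] := by
            cases w with
            | nil => exact absurd rfl hw'
            | cons b w =>
                cases b with
                | inl y =>
                    have := ih y (by simp)
                    simp [this]
                | inr t => simp
          intro x hx
          simp only [holes_append, holes_hole, List.mem_append, List.mem_cons] at hx
          rcases hx with hx | hx | hx
          · exact ih x (by simp [hx])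
          · rw [hx]; exact hflat
          · exact ih x (by simp [hx])
      | skip l' r r' hl' hr => exact ih

lemma pairwise_holes {R : G.N × List Sym → G.N × List Sym → Prop} :
    ∀ l : List (Item G), (∀ a b c h h', l = a ++ Sum.inl h :: (b ++ Sum.inl h' :: c) → R h h') →
    (holes l).Pairwise R
  | [], _ => by simp
  | Sum.inl x :: l, H => by
      rw [holes_hole, List.pairwise_cons]
      refine ⟨fun h' hh' => ?_, pairwise_holes l fun a b c h h' e =>
        H (Sum.inl x :: a) b c h h' (by simp [e])⟩
      obtain ⟨u, v, e⟩ := mem_holes_split hh'
      exact H [] u v x h' (by simp [e])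
  | Sum.inr t :: l, H => by
      rw [holes_term]
      exact pairwise_holes l fun a b c h h' e => H (Sum.inr t :: a) b c h h' (by simp [e])

/-- the essential holes -/
def ess (l : List (Item G)) : List (G.N × List Sym) :=
  (holes l).filter fun x => decide (2 ≤ (ys x.2).length)

/-- At every time the essential holes belong to different nonterminals, which do not occur
otherwise. -/
theorem ess_pairwise (hG : G.NonErasing) (hL : G.language = Lang) {x : List Sym} {n : ℕ}
    {f : ℕ → List (Item G) × G.Label} (h0 : (f 0).1 = [Sum.inl (G.start, x)])
    (hn : (f n).1 = x.map Sum.inr) (hs : ∀ i < n, TStep (f i) (f (i + 1))) (hx : x ∈ Lang)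
    (i : ℕ) (hi : i ≤ n) :
    (holes (f i).1).Pairwise (fun h h' => ¬ (h.1 = h'.1 ∧
      (2 ≤ (ys h.2).length ∨ 2 ≤ (ys h'.2).length))) := by
  have hfut := future_of_seq hs i hi
  have hpast := reach_of_seq h0 hs i hi
  have hfl : flat (f i).1 = x := by
    have : ∀ j, j ≤ n → flat (f j).1 = x := by
      intro j
      induction j with
      | zero => intro _; rw [h0]; simp
      | succ j ih => intro hj; rw [(hs j (by omega)).flat_eq, ih (by omega)]
    exact this i hi
  have hne := yield_ne_nil hG hfut (by rw [hn]; exact holes_map_inr x)
  apply pairwise_holes
  intro a b c h h' e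
  rintro ⟨h1, h2⟩
  have hmem : h.2 ≠ [] := hne h (by rw [e]; simp)
  have hmem' : h'.2 ≠ [] := hne h' (by rw [e]; simp)
  have hz : flat (a ++ Sum.inl h' :: (b ++ Sum.inl h :: c)) ∈ Lang := by
    rw [← hL]
    refine mix (l := (f i).1) (l' := (f i).1) (z' := x) hpast (r₁ := (f n).2) ?_ ?_ ?_
    · rw [← hn]; exact hfut
    · rw [e]; simp [h1]
    · rw [e]
      simp only [holes_append, holes_hole]
      refine List.Perm.append_left _ ?_
      refine (List.perm_middle (l₁ := h' :: holes b)).trans ?_
      refine List.Perm.cons _ ?_
      exact (List.perm_middle (l₁ := holes b)).symm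
  have hx' : flat (a ++ Sum.inl h :: (b ++ Sum.inl h' :: c)) ∈ Lang := by
    rw [← e, hfl]; exact hx
  rcases h2 with h2 | h2
  · refine no_swap (a := flat a) (U := h.2) (b := flat b) (V := h'.2) (c := flat c) ?_ ?_ h2 hmem'
    · simpa using hx'
    · simpa using hz
  · refine no_swap (a := flat a) (U := h'.2) (b := flat b) (V := h.2) (c := flat c) ?_ ?_ h2 hmem
    · simpa using hz
    · simpa using hx'

lemma ess_length_le (hG : G.NonErasing) (hL : G.language = Lang) {x : List Sym} {n : ℕ}
    {f : ℕ → List (Item G) × G.Label} (h0 : (f 0).1 = [Sum.inl (G.start, x)])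
    (hn : (f n).1 = x.map Sum.inr) (hs : ∀ i < n, TStep (f i) (f (i + 1))) (hx : x ∈ Lang)
    (i : ℕ) (hi : i ≤ n) : (ess (f i).1).length ≤ Nat.card G.N := by
  have := G.finN
  have h1 := ess_pairwise hG hL h0 hn hs hx i hi
  have h2 : ((ess (f i).1).map Prod.fst).Nodup := by
    unfold ess
    rw [List.Nodup, List.pairwise_map]
    refine List.Pairwise.imp_of_mem ?_ (h1.filter _)
    intro a b ha hb hab hne
    apply hab
    refine ⟨hne, Or.inl ?_⟩
    simpa using (List.mem_filter.1 ha).2
  have h3 : ((ess (f i).1).map Prod.fst).length ≤ Nat.card G.N := by
    classical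
    have := Fintype.ofFinite G.N
    rw [Nat.card_eq_fintype_card]
    exact h2.length_le_card
  simpa using h3

end

end Pool.Agent.Helper80.CRL
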