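import Mathlib
import Pool.Agent.Helper80.CRL.Skel
import Pool.Agent.Helper80.CRL.Shape

set_option autoImplicit false

namespace Pool.Agent.Helper80.CRL

open Relation

variable {G : ProgrammedGrammar Sym}

/-- the brackets of an item -/
def itY : Item G → List (Bool × Bool)
  | Sum.inl x => ys x.2
  | Sum.inr t => ys [t]

/-- which brackets are exposed: those not in an essential hole -/
def exposed (l : List (Item G)) : List Bool :=
  l.flatMap fun a => List.replicate (itY a).length (decide ((itY a).length ≤ 1))

@[simp] lemma exposed_nil : exposed ([] : List (Item G)) = [] := rfl

@[simp] lemma exposed_cons (a : Item G) (l : List (Item G)) :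
    exposed (a :: l) = List.replicate (itY a).length (decide ((itY a).length ≤ 1)) ++ exposed l :=
  by simp [exposed]

@[simp] lemma exposed_append (a b : List (Item G)) :
    exposed (a ++ b) = exposed a ++ exposed b := by simp [exposed]

lemma ys_flat_cons (a : Item G) (l : List (Item G)) : ys (flat (a :: l)) = itY a ++ ys (flat l) := by
  cases a with
  | inl x => simp [itY]
  | inr t => simp only [flat_term, itY]; rw [show t :: flat l = [t] ++ flat l from rfl, ys_append]

lemma itY_term (t : Sym) : (itY (Sum.inr t : Item G)).length ≤ 1 := by
  cases t with
  | none => simp [itY]
  | some b => simp [itY]

@[simp] lemma exposed_length (l : List (Item G)) : (exposed l).length = (ys (flat l)).length := by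
  induction l with
  | nil => rfl
  | cons a l ih => rw [ys_flat_cons, exposed_cons]; simp [ih]

lemma exposed_terms (z : List Sym) : exposed (z.map Sum.inr : List (Item G)) =
    List.replicate (ys z).length true := by
  induction z with
  | nil => rfl
  | cons t z ih =>
      rw [List.map_cons, exposed_cons, ih, decide_eq_true (itY_term t)]
      rw [show t :: z = [t] ++ z from rfl, ys_append, List.length_append, List.replicate_add]
      rfl

lemma exposed_small (l : List (Item G)) (h : (ys (flat l)).length ≤ 1) :
    exposed l = List.replicate (ys (flat l)).length true := by
  induction l with
  | nil => rfl
  | cons a l ih =>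
      rw [ys_flat_cons, List.length_append] at h ⊢
      rw [exposed_cons, ih (by omega), decide_eq_true (by omega), ← List.replicate_add]

lemma exposed_count (l : List (Item G)) : (exposed l).count true ≤ l.length := by
  induction l with
  | nil => simp
  | cons a l ih =>
      rw [exposed_cons, List.count_append, List.count_replicate]
      by_cases h : (itY a).length ≤ 1
      · simp only [h, decide_true, beq_self_eq_true, if_true, List.length_cons]
        omega
      · simp only [h, decide_false, List.length_cons]
        simp
        omega

lemma exposed_mono {p q : List (Item G) × G.Label} (h : TStep p q) (i : ℕ)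
    (hi : (exposed p.1)[i]? = some true) : (exposed q.1)[i]? = some true := by
  cases h with
  | skip l r r' hl hr => exact hi
  | expand u v w r r' hw hr =>
      simp only [exposed_append, exposed_cons, List.append_assoc] at hi ⊢
      rw [List.getElem?_append] at hi ⊢
      split_ifs at hi ⊢ with h1
      · exact hi
      · have hl : (itY (Sum.inl (G.lhs r, flat w) : Item G)).length = (exposed w).length := by
          simp [itY]
        rw [List.getElem?_append] at hi ⊢
        rw [List.length_replicate, hl] at hi
        split_ifs at hi ⊢ with h2
        · rw [← hl, List.getElem?_replicate] at hi
          split_ifs at hi with h3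
          · simp only [Option.some.injEq, decide_eq_true_eq] at hi
            rw [exposed_small w (by simpa [itY] using hi), List.getElem?_replicate]
            rw [if_pos]
            simpa [itY] using h3
        · exact hi

lemma count_interval : ∀ (p q : List Bool) (a b : ℕ), p.length = q.length →
    (∀ i : ℕ, p[i]? = some true → q[i]? = some true) →
    (∀ i, a ≤ i → i < b → p[i]? ≠ some true ∧ q[i]? = some true) →
    p.count true + (b - a) ≤ q.count true
  | [], q, a, b, hl, h1, h2 => by
      have hq : q = [] := List.length_eq_zero_iff.1 (by rw [← hl]; rfl)
      subst hq
      by_cases hab : a < b
      · exact absurd (h2 a le_rfl hab).2 (by simp)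
      · simp; omega
  | x :: p, [], a, b, hl, h1, h2 => by simp at hl
  | x :: p, y :: q, a, b, hl, h1, h2 => by
      have hl' : p.length = q.length := by simpa using hl
      have h1' : ∀ i : ℕ, p[i]? = some true → q[i]? = some true := fun i hi => by
        have := h1 (i + 1)
        rw [List.getElem?_cons_succ, List.getElem?_cons_succ] at this
        exact this hi
      have h0 := h1 0
      rw [List.getElem?_cons_zero, List.getElem?_cons_zero] at h0
      have hcx : List.count true (x :: p) = List.count true p + (if x = true then 1 else 0) := by
        rw [List.count_cons]; cases x <;> rfl
      have hcy : List.count true (y :: q) = List.count true q + (if y = true then 1 else 0) := by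
        rw [List.count_cons]; cases y <;> rfl
      have h00 : (if x = true then 1 else 0) ≤ (if y = true then 1 else 0 : ℕ) := by
        cases x
        · simp
        · have h4 := h0 rfl
          rw [Option.some.injEq] at h4
          rw [h4]
      rw [hcx, hcy]
      by_cases ha : a = 0
      · subst ha
        by_cases hb : b = 0
        · subst hb
          have ih := count_interval p q 0 0 hl' h1' (fun i _ h => absurd h (by omega))
          omega
        · obtain ⟨b', rfl⟩ := Nat.exists_eq_succ_of_ne_zero hb
          have ih := count_interval p q 0 b' hl' h1' (fun i _ h => by
            have := h2 (i + 1) (by omega) (by omega)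
            rw [List.getElem?_cons_succ, List.getElem?_cons_succ] at this
            exact this)
          have h3 := h2 0 le_rfl (by omega)
          rw [List.getElem?_cons_zero, List.getElem?_cons_zero, Option.some.injEq] at h3
          have h4 : x ≠ true := fun h => h3.1 (by rw [h])
          rw [if_neg h4, if_pos h3.2]
          omega
      · obtain ⟨a', rfl⟩ := Nat.exists_eq_succ_of_ne_zero ha
        have ih := count_interval p q a' (b - 1) hl' h1' (fun i h3 h4 => by
          have := h2 (i + 1) (by omega) (by omega)
          rw [List.getElem?_cons_succ, List.getElem?_cons_succ] at this
          exact this)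
        omega

lemma exposed_grow {p q : List (Item G) × G.Label} (h : TStep p q) {c : ℕ}
    (hc : ∀ r, (G.rhs r).length ≤ c) (a b : ℕ)
    (hab : ∀ i, a ≤ i → i < b → ¬ (exposed p.1)[i]? = some true ∧ (exposed q.1)[i]? = some true) :
    b ≤ a + c := by
  have h1 : (exposed p.1).length = (exposed q.1).length := by simp [h.flat_eq]
  have h2 := count_interval (exposed p.1) (exposed q.1) a b h1 (exposed_mono h) hab
  have h3 : (exposed q.1).count true ≤ (exposed p.1).count true + c := by
    cases h with
    | skip l r r' hl hr => simp
    | expand u v w r r' hw hr =>
        simp only [exposed_append, exposed_cons, List.count_append]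
        have h4 := exposed_count w
        have h5 : w.length ≤ c := by
          have : w.length = (G.rhs r).length := by rw [← hw]; simp [form]
          rw [this]; exact hc r
        omega
  omega

/-- number of boundaries in a list -/
def bdl : List Bool → ℕ
  | [] => 0
  | [_] => 0
  | a :: b :: l => (if a = b then 0 else 1) + bdl (b :: l)

lemma bset_card_le : ∀ E : List Bool,
    (bset (fun i => E[i]? = some true) 0 E.length).card ≤ bdl E
  | [] => by
      refine le_of_eq_of_le ?_ (Nat.zero_le _)
      rw [Finset.card_eq_zero, Finset.eq_empty_iff_forall_notMem]
      intro i hi
      rw [mem_bset] at hi
      simp at hi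
  | [x] => by
      simp only [bdl, Nat.le_zero, Finset.card_eq_zero, Finset.eq_empty_iff_forall_notMem]
      intro i hi
      rw [mem_bset] at hi
      simp at hi
  | x :: y :: E => by
      classical
      have ih := bset_card_le (y :: E)
      simp only [bdl]
      by_cases hxy : x = y
      · rw [if_pos hxy, zero_add]
        refine le_trans ?_ ih
        refine Finset.card_le_card_of_injOn (fun i => i - 1) ?_ ?_
        · intro i hi
          have hi' := mem_bset.1 (Finset.mem_coe.1 hi)
          refine Finset.mem_coe.2 (mem_bset.2 ?_)
          cases i with
          | zero =>
              exfalso
              apply hi'.2.2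
              simp [hxy]
          | succ i =>
              refine ⟨by omega, by simpa using hi'.2.1, ?_⟩
              simpa using hi'.2.2
        · intro i hi j hj hij
          have hi' := mem_bset.1 (Finset.mem_coe.1 hi)
          have hj' := mem_bset.1 (Finset.mem_coe.1 hj)
          have hi0 : i ≠ 0 := by
            rintro rfl
            apply hi'.2.2
            simp [hxy]
          have hj0 : j ≠ 0 := by
            rintro rfl
            apply hj'.2.2
            simp [hxy]
          simp only at hij
          omega
      · rw [if_neg hxy]
        have h1 : bset (fun i => (x :: y :: E)[i]? = some true) 0 (x :: y :: E).length ⊆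
            insert 0 ((bset (fun i => (y :: E)[i]? = some true) 0 (y :: E).length).image
              (fun i => i + 1)) := by
          intro i hi
          rw [mem_bset] at hi
          rw [Finset.mem_insert, Finset.mem_image]
          cases i with
          | zero => left; rfl
          | succ i =>
              right
              refine ⟨i, mem_bset.2 ⟨by omega, by simpa using hi.2.1, ?_⟩, rfl⟩
              simpa using hi.2.2
        calc _ ≤ _ := Finset.card_le_card h1
          _ ≤ _ := Finset.card_insert_le _ _
          _ ≤ _ := by
              have := Finset.card_image_le (s := bset (fun i => (y :: E)[i]? = some true) 0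
                (y :: E).length) (f := fun i => i + 1)
              omega

lemma bdl_cons_le (x : Bool) (E : List Bool) : bdl E ≤ bdl (x :: E) := by
  cases E with
  | nil => simp [bdl]
  | cons y E => simp only [bdl]; omega

lemma bdl_cons_le' (x y : Bool) (E : List Bool) : bdl (x :: E) ≤ 1 + bdl (y :: E) := by
  cases E with
  | nil => simp [bdl]
  | cons z E =>
      simp only [bdl]
      split_ifs <;> omega

lemma bdl_replicate (x : Bool) (n : ℕ) (E : List Bool) :
    bdl (x :: (List.replicate n x ++ E)) = bdl (x :: E) := by
  induction n with
  | zero => simp
  | succ n ih =>
      rw [List.replicate_succ, List.cons_append]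
      simp only [bdl, if_true, zero_add]
      exact ih

lemma bdl_exposed (l : List (Item G)) : bdl (true :: exposed l) ≤ 2 * (ess l).length := by
  induction l with
  | nil => simp [bdl]
  | cons a l ih =>
      rw [exposed_cons]
      by_cases h : (itY a).length ≤ 1
      · rw [decide_eq_true h, bdl_replicate]
        refine ih.trans ?_
        cases a with
        | inl x =>
            unfold ess
            rw [holes_hole, List.filter_cons]
            split_ifs
            · simp
            · rfl
        | inr t => rfl
      · cases a with
        | inr t => exact absurd (itY_term t) h
        | inl x =>
            rw [decide_eq_false h]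
            have h2 : (ess (Sum.inl x :: l)).length = (ess l).length + 1 := by
              unfold ess
              rw [holes_hole, List.filter_cons]
              have : decide (2 ≤ (ys x.2).length) = true := by
                simp only [itY] at h
                simp only [decide_eq_true_eq]; omega
              rw [if_pos this]
              simp
            rw [h2]
            have h3 := bdl_cons_le' true false (List.replicate (itY (Sum.inl x : Item G)).length
              false ++ exposed l)
            rw [bdl_replicate] at h3
            have h4 := bdl_cons_le' false true (exposed l)
            omega

theorem bset_exposed (l : List (Item G)) :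
    (bset (fun i => (exposed l)[i]? = some true) 0 (ys (flat l)).length).card ≤
      2 * (ess l).length := by
  rw [← exposed_length]
  exact (bset_card_le _).trans ((bdl_cons_le true _).trans (bdl_exposed l))

end Pool.Agent.Helper80.CRL
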