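import Mathlib
import Pool.Agent.Helper80.CRL.Expose

set_option autoImplicit false

namespace Pool.Agent.Helper80.CRL

open Relation

variable {G : ProgrammedGrammar Sym}

/-- the holes with their starting positions (in the word of brackets) -/
def aholes : ℕ → List (Item G) → List ((G.N × List Sym) × ℕ)
  | _, [] => []
  | s, Sum.inl x :: l => (x, s) :: aholes (s + (ys x.2).length) l
  | s, Sum.inr t :: l => aholes (s + (ys [t]).length) l

lemma aholes_fst : ∀ (s : ℕ) (l : List (Item G)), (aholes s l).map Prod.fst = holes l
  | _, [] => rfl
  | s, Sum.inl x :: l => by simp [aholes, aholes_fst _ l]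
  | s, Sum.inr t :: l => by simp [aholes, aholes_fst _ l]

/-- the key of an annotated hole -/
def key (h : (G.N × List Sym) × ℕ) : G.N × (Option (Bool × Bool) ⊕ ℕ × ℕ) :=
  (h.1.1, if (ys h.1.2).length ≤ 1 then Sum.inl (ys h.1.2).head? else
    Sum.inr (h.2, (ys h.1.2).length))

/-- the mixture of the exposed letters of `l` with the letters of `Y` -/
def mixl (Y : List (Bool × Bool)) : ℕ → List (Item G) → List (Bool × Bool)
  | _, [] => []
  | s, a :: l => (if (itY a).length ≤ 1 then itY a else (Y.drop s).take (itY a).length) ++
      mixl Y (s + (itY a).length) l

lemma eq_of_head {α : Type} : ∀ {u v : List α}, u.length ≤ 1 → v.length ≤ 1 →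
    u.head? = v.head? → u = v
  | [], [], _, _, _ => rfl
  | [], [b], _, _, h => by simp at h
  | [a], [], _, _, h => by simp at h
  | [a], [b], _, _, h => by simpa using h
  | a :: a' :: u, _, h, _, _ => by simp at h
  | _, b :: b' :: v, _, h, _ => by simp at h

theorem build (Y : List (Bool × Bool)) : ∀ (l : List (Item G)) (s : ℕ)
    (H : List ((G.N × List Sym) × ℕ)), (H.map key).Perm ((aholes s l).map key) →
    (∀ h ∈ H, ys h.1.2 = (Y.drop h.2).take (ys h.1.2).length) →
    ∃ l'' : List (Item G), form l'' = form l ∧ (holes l'').Perm (H.map Prod.fst) ∧
      ys (flat l'') = mixl Y s l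
  | [], s, H, hp, _ => by
      have : H = [] := by simpa [aholes] using hp
      subst this
      exact ⟨[], rfl, List.Perm.refl _, rfl⟩
  | Sum.inr t :: l, s, H, hp, hH => by
      obtain ⟨l'', h1, h2, h3⟩ := build Y l (s + (ys [t]).length) H hp hH
      refine ⟨Sum.inr t :: l'', by simp [h1], by simpa using h2, ?_⟩
      rw [ys_flat_cons, h3]
      simp only [mixl]
      rw [if_pos (itY_term t)]
      rfl
  | Sum.inl x :: l, s, H, hp, hH => by
      have hm : key (x, s) ∈ H.map key := by
        rw [hp.mem_iff]; simp [aholes]
      obtain ⟨h, hh, hk⟩ := List.mem_map.1 hm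
      obtain ⟨H1, H2, rfl⟩ := List.append_of_mem hh
      have hp' : ((H1 ++ H2).map key).Perm ((aholes (s + (ys x.2).length) l).map key) := by
        simp only [aholes, List.map_cons, List.map_append] at hp ⊢
        rw [hk] at hp
        exact (List.perm_cons _).1 (List.perm_middle.symm.trans hp)
      obtain ⟨l'', h1, h2, h3⟩ := build Y l (s + (ys x.2).length) (H1 ++ H2) hp'
        (fun h' hh' => hH h' (by
          simp only [List.mem_append, List.mem_cons] at hh' ⊢
          tauto))
      have hk1 := congrArg Prod.fst hk
      simp only [key] at hk1
      have hk2 := congrArg Prod.snd hk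
      simp only [key] at hk2
      refine ⟨Sum.inl h.1 :: l'', by simp [h1, hk1], ?_, ?_⟩
      · rw [holes_hole]
        refine (List.Perm.cons _ h2).trans ?_
        simp only [List.map_append, List.map_cons]
        exact List.perm_middle.symm
      · rw [ys_flat_cons, h3]
        rw [mixl]
        refine congrArg₂ _ ?_ rfl
        by_cases hx : (itY (Sum.inl x : Item G)).length ≤ 1
        · rw [if_pos hx]
          rw [if_pos (show (ys x.2).length ≤ 1 from hx)] at hk2
          by_cases hh' : (ys h.1.2).length ≤ 1
          · rw [if_pos hh'] at hk2
            exact eq_of_head hh' hx (Sum.inl.inj hk2)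
          · rw [if_neg hh'] at hk2
            exact absurd hk2 (by simp)
        · rw [if_neg hx]
          rw [if_neg (show ¬ (ys x.2).length ≤ 1 from hx)] at hk2
          by_cases hh' : (ys h.1.2).length ≤ 1
          · rw [if_pos hh'] at hk2
            exact absurd hk2 (by simp)
          · rw [if_neg hh'] at hk2
            have h4 := Sum.inr.inj hk2
            rw [Prod.mk.injEq] at h4
            have h5 := hH h hh
            rw [h4.1, h4.2] at h5
            exact h5

lemma mixl_length (Y : List (Bool × Bool)) : ∀ (l : List (Item G)) (s : ℕ),
    s + (ys (flat l)).length ≤ Y.length → (mixl Y s l).length = (ys (flat l)).length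
  | [], s, _ => rfl
  | a :: l, s, h => by
      rw [ys_flat_cons, List.length_append] at h ⊢
      simp only [mixl, List.length_append]
      rw [mixl_length Y l _ (by omega)]
      split_ifs
      · rfl
      · rw [List.length_take, List.length_drop]; omega

lemma mixl_get (Y : List (Bool × Bool)) : ∀ (l : List (Item G)) (s i : ℕ),
    s + (ys (flat l)).length ≤ Y.length → i < (ys (flat l)).length →
    (mixl Y s l)[i]? = if (exposed l)[i]? = some true then (ys (flat l))[i]? else Y[s + i]?
  | [], s, i, _, hi => by simp at hi
  | a :: l, s, i, h, hi => by
      rw [ys_flat_cons, List.length_append] at h hi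
      rw [ys_flat_cons]
      simp only [mixl]
      rw [exposed_cons]
      have hlen : (if (itY a).length ≤ 1 then itY a else
          (Y.drop s).take (itY a).length).length = (itY a).length := by
        split_ifs
        · rfl
        · rw [List.length_take, List.length_drop]; omega
      by_cases hin : i < (itY a).length
      · rw [List.getElem?_append_left (by rw [hlen]; exact hin),
          List.getElem?_append_left (by simpa using hin),
          List.getElem?_append_left hin, List.getElem?_replicate, if_pos hin]
        by_cases h1 : (itY a).length ≤ 1
        · simp [h1]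
        · simp only [h1, if_false, decide_false, Option.some.injEq, Bool.false_eq_true]
          rw [List.getElem?_take, if_pos hin, List.getElem?_drop]
      · have ih := mixl_get Y l (s + (itY a).length) (i - (itY a).length) (by omega) (by omega)
        rw [List.getElem?_append_right (by rw [hlen]; omega),
          List.getElem?_append_right (by simpa using hin),
          List.getElem?_append_right (by omega), hlen, List.length_replicate, ih,
          show s + (itY a).length + (i - (itY a).length) = s + i by omega]

lemma aholes_seg : ∀ (l : List (Item G)) (P : List (Bool × Bool)),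
    ∀ h ∈ aholes P.length l,
      ys h.1.2 = ((P ++ ys (flat l)).drop h.2).take (ys h.1.2).length
  | [], P, h, hh => by simp [aholes] at hh
  | Sum.inr t :: l, P, h, hh => by
      simp only [aholes] at hh
      have ih := aholes_seg l (P ++ ys [t]) h (by rw [List.length_append]; exact hh)
      rw [ys_flat_cons]
      rw [List.append_assoc] at ih
      exact ih
  | Sum.inl x :: l, P, h, hh => by
      simp only [aholes, List.mem_cons] at hh
      rw [ys_flat_cons]
      rcases hh with rfl | hh
      · simp [itY]
      · have ih := aholes_seg l (P ++ ys x.2) h (by rw [List.length_append]; exact hh)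
        rw [List.append_assoc] at ih
        exact ih

/-- the keys of the essential holes -/
def keysE (K : List (G.N × (Option (Bool × Bool) ⊕ ℕ × ℕ))) : List (G.N × ℕ × ℕ) :=
  K.filterMap fun k => match k with
    | (_, Sum.inl _) => none
    | (A, Sum.inr p) => some (A, p)

/-- the keys of the other holes -/
def keysN (K : List (G.N × (Option (Bool × Bool) ⊕ ℕ × ℕ))) :
    List (G.N × Option (Bool × Bool)) :=
  K.filterMap fun k => match k with
    | (A, Sum.inl o) => some (A, o)
    | (_, Sum.inr _) => none

lemma perm_keys : ∀ K : List (G.N × (Option (Bool × Bool) ⊕ ℕ × ℕ)),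
    K.Perm ((keysE K).map (fun a => (a.1, Sum.inr a.2)) ++
      (keysN K).map (fun a => (a.1, Sum.inl a.2)))
  | [] => List.Perm.refl _
  | (A, Sum.inl o) :: K => by
      have ih := perm_keys K
      have e1 : keysE ((A, Sum.inl o) :: K) = keysE K := rfl
      have e2 : keysN ((A, Sum.inl o) :: K) = (A, o) :: keysN K := rfl
      rw [e1, e2, List.map_cons]
      exact (List.Perm.cons _ ih).trans List.perm_middle.symm
  | (A, Sum.inr p) :: K => by
      have ih := perm_keys K
      have e1 : keysE ((A, Sum.inr p) :: K) = (A, p) :: keysE K := rfl
      have e2 : keysN ((A, Sum.inr p) :: K) = keysN K := rfl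
      rw [e1, e2, List.map_cons]
      exact List.Perm.cons _ ih

lemma perm_of_keys {K K' : List (G.N × (Option (Bool × Bool) ⊕ ℕ × ℕ))}
    (h1 : keysE K = keysE K') (h2 : (keysN K).Perm (keysN K')) : K.Perm K' := by
  refine (perm_keys K).trans (List.Perm.trans ?_ (perm_keys K').symm)
  rw [h1]
  exact (h2.map _).append_left _

lemma keysE_length : ∀ (s : ℕ) (l : List (Item G)),
    (keysE ((aholes s l).map key)).length = (ess l).length
  | _, [] => rfl
  | s, Sum.inr t :: l => by
      simp only [aholes]
      rw [keysE_length _ l]
      rfl
  | s, Sum.inl x :: l => by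
      simp only [aholes, List.map_cons]
      have ih := keysE_length (s + (ys x.2).length) l
      by_cases h : (ys x.2).length ≤ 1
      · have e1 : keysE (key (x, s) :: (aholes (s + (ys x.2).length) l).map key) =
            keysE ((aholes (s + (ys x.2).length) l).map key) := by
          simp only [key, if_pos h]
          rfl
        have e2 : ess (Sum.inl x :: l) = ess l := by
          unfold ess
          rw [holes_hole, List.filter_cons, if_neg]
          simp only [decide_eq_true_eq]; omega
        rw [e1, e2, ih]
      · have e1 : keysE (key (x, s) :: (aholes (s + (ys x.2).length) l).map key) =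
            (x.1, (s, (ys x.2).length)) :: keysE ((aholes (s + (ys x.2).length) l).map key) := by
          simp only [key, if_neg h]
          rfl
        have e2 : ess (Sum.inl x :: l) = x :: ess l := by
          unfold ess
          rw [holes_hole, List.filter_cons, if_pos]
          simp only [decide_eq_true_eq]; omega
        rw [e1, e2, List.length_cons, List.length_cons, ih]

lemma keysN_length (K : List (G.N × (Option (Bool × Bool) ⊕ ℕ × ℕ))) :
    (keysN K).length ≤ K.length := List.length_filterMap_le _ _

lemma keysE_bound : ∀ (s : ℕ) (l : List (Item G)),
    ∀ k ∈ keysE ((aholes s l).map key), k.2.1 + k.2.2 ≤ s + (ys (flat l)).length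
  | _, [], k, hk => by simp [aholes, keysE] at hk
  | s, Sum.inr t :: l, k, hk => by
      simp only [aholes] at hk
      have ih := keysE_bound _ l k hk
      rw [ys_flat_cons, List.length_append]
      simp only [itY]
      omega
  | s, Sum.inl x :: l, k, hk => by
      simp only [aholes, List.map_cons] at hk
      rw [ys_flat_cons, List.length_append]
      by_cases h : (ys x.2).length ≤ 1
      · have e1 : keysE (key (x, s) :: (aholes (s + (ys x.2).length) l).map key) =
            keysE ((aholes (s + (ys x.2).length) l).map key) := by
          simp only [key, if_pos h]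
          rfl
        rw [e1] at hk
        have ih := keysE_bound _ l k hk
        simp only [itY]
        omega
      · have e1 : keysE (key (x, s) :: (aholes (s + (ys x.2).length) l).map key) =
            (x.1, (s, (ys x.2).length)) :: keysE ((aholes (s + (ys x.2).length) l).map key) := by
          simp only [key, if_neg h]
          rfl
        rw [e1, List.mem_cons] at hk
        rcases hk with rfl | hk
        · simp only [itY]
          omega
        · have ih := keysE_bound _ l k hk
          simp only [itY]
          omega

lemma holes_length_le : ∀ (l : List (Item G)), (∀ h ∈ holes l, h.2 ≠ []) →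
    (holes l).length ≤ (flat l).length
  | [], _ => le_refl _
  | Sum.inr t :: l, H => by
      rw [holes_term, flat_term, List.length_cons]
      have := holes_length_le l (fun h hh => H h (by simpa using hh))
      omega
  | Sum.inl x :: l, H => by
      rw [holes_hole, flat_hole, List.length_cons, List.length_append]
      have h1 := holes_length_le l (fun h hh => H h (by simp [hh]))
      have h2 : x.2 ≠ [] := H x (by simp)
      have h3 : 0 < x.2.length := List.length_pos_iff.2 h2
      omega

end Pool.Agent.Helper80.CRL
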