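import Mathlib
import Pool.Agent.Helper80.CRL.Lang
import Pool.Agent.Helper80.CRL.Shape

set_option autoImplicit false

namespace Pool.Agent.Helper80.CRL

/-- the pattern of the shape: `true` for opening brackets -/
def shp (q : ℕ) : ℕ → ℕ → ℕ → Bool
  | 0, o, i => decide (i < o + q)
  | j + 1, o, i =>
      if i < o + q then true
      else if i < o + q + len q j then shp q j (o + q) i
      else if i < o + q + 2 * len q j then shp q j (o + q + len q j) i
      else if i < o + q + 3 * len q j then shp q j (o + q + 2 * len q j) i
      else false

/-- the labels of the shape, from the labels of the opening brackets -/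
def lab (q : ℕ) (f : ℕ → Bool) : ℕ → ℕ → ℕ → Bool
  | 0, o, i => if i < o + q then f i else f (o + (q - 1 - (i - (o + q))))
  | j + 1, o, i =>
      if i < o + q then f i
      else if i < o + q + len q j then lab q f j (o + q) i
      else if i < o + q + 2 * len q j then lab q f j (o + q + len q j) i
      else if i < o + q + 3 * len q j then lab q f j (o + q + 2 * len q j) i
      else f (o + (q - 1 - (i - (o + q + 3 * len q j))))

/-- the word of shape `T_j` at offset `o` with labels `g` -/
def PW (q : ℕ) (g : ℕ → Bool) (j o : ℕ) : List (Bool × Bool) :=
  (List.range' o (len q j)).map fun i => (shp q j o i, g i)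

@[simp] lemma PW_length (q : ℕ) (g : ℕ → Bool) (j o : ℕ) : (PW q g j o).length = len q j := by
  simp [PW]

lemma PW_zero (q : ℕ) (g : ℕ → Bool) (o : ℕ) : PW q g 0 o =
    (List.range' o q).map (fun i => (true, g i)) ++
      (List.range' (o + q) q).map (fun i => (false, g i)) := by
  unfold PW
  rw [show len q 0 = q + q by simp [len]; omega, ← List.range'_append_1, List.map_append]
  congr 1
  · apply List.map_congr_left
    intro i hi
    rw [List.mem_range'_1] at hi
    simp [shp, hi.2]
  · apply List.map_congr_left
    intro i hi
    rw [List.mem_range'_1] at hi
    simp [shp]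
    omega

lemma PW_succ (q : ℕ) (g : ℕ → Bool) (j o : ℕ) : PW q g (j + 1) o =
    (List.range' o q).map (fun i => (true, g i)) ++
      (PW q g j (o + q) ++ (PW q g j (o + q + len q j) ++ (PW q g j (o + q + 2 * len q j) ++
      (List.range' (o + q + 3 * len q j) q).map (fun i => (false, g i))))) := by
  set L := len q j with hL
  unfold PW
  rw [show len q (j + 1) = q + (L + (L + (L + q))) by simp only [len, ← hL]; omega,
    ← List.range'_append_1, ← List.range'_append_1, ← List.range'_append_1,
    ← List.range'_append_1, List.map_append, List.map_append, List.map_append, List.map_append,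
    show o + q + L + L = o + q + 2 * L by omega, show o + q + 2 * L + L = o + q + 3 * L by omega,
    ← hL]
  have hs : ∀ i, shp q (j + 1) o i = if i < o + q then true
      else if i < o + q + L then shp q j (o + q) i
      else if i < o + q + 2 * L then shp q j (o + q + L) i
      else if i < o + q + 3 * L then shp q j (o + q + 2 * L) i
      else false := fun i => rfl
  congr 1
  · apply List.map_congr_left
    intro i hi
    rw [List.mem_range'_1] at hi
    rw [hs, if_pos hi.2]
  congr 1
  · apply List.map_congr_left
    intro i hi
    rw [List.mem_range'_1] at hi
    rw [hs, if_neg (by omega), if_pos (by omega)]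
  congr 1
  · apply List.map_congr_left
    intro i hi
    rw [List.mem_range'_1] at hi
    rw [hs, if_neg (by omega), if_neg (by omega), if_pos (by omega)]
  congr 1
  · apply List.map_congr_left
    intro i hi
    rw [List.mem_range'_1] at hi
    rw [hs, if_neg (by omega), if_neg (by omega), if_neg (by omega), if_pos (by omega)]
  · apply List.map_congr_left
    intro i hi
    rw [List.mem_range'_1] at hi
    rw [hs, if_neg (by omega), if_neg (by omega), if_neg (by omega), if_neg (by omega)]

lemma run_open (l : List Bool) (s : List Bool) (w : List (Bool × Bool)) :
    run s (l.map (fun b => (true, b)) ++ w) = run (l.reverse ++ s) w := by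
  induction l generalizing s with
  | nil => rfl
  | cons b l ih => simp [run, ih]

lemma run_close (l k : List Bool) (hlk : l.length = k.length) (s s' : List Bool)
    (w : List (Bool × Bool)) :
    run (l ++ s) (k.map (fun b => (false, b)) ++ w) = some s' ↔ l = k ∧ run s w = some s' := by
  induction k generalizing l with
  | nil =>
      have : l = [] := List.length_eq_zero_iff.1 hlk
      subst this
      simp
  | cons b k ih =>
      cases l with
      | nil => simp at hlk
      | cons a l =>
          simp only [List.cons_append, List.map_cons, run]
          by_cases h : a = b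
          · rw [if_pos h, ih l (by simpa using hlk)]
            simp [h]
          · rw [if_neg h]
            simp [h]

lemma range'_reverse_map (g : ℕ → Bool) (a b q : ℕ) :
    ((List.range' a q).map g).reverse = (List.range' b q).map g ↔
      ∀ s < q, g (b + (q - 1 - s)) = g (a + s) := by
  constructor
  · intro h s hs
    have h1 := congrArg (fun l : List Bool => l[q - 1 - s]?) h
    simp only [List.getElem?_map] at h1
    rw [List.getElem?_reverse (by simp; omega)] at h1
    simp only [List.length_map, List.length_range', List.getElem?_map] at h1
    rw [show q - 1 - (q - 1 - s) = s by omega, List.getElem?_range' (by omega),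
      List.getElem?_range' (by omega)] at h1
    simp only [Option.map_some, Option.some.injEq, one_mul] at h1
    exact h1.symm
  · intro h
    apply List.ext_getElem?
    intro i
    by_cases hi : i < q
    · rw [List.getElem?_reverse (by simpa using hi)]
      simp only [List.length_map, List.length_range', List.getElem?_map]
      rw [List.getElem?_range' (by omega), List.getElem?_range' (by omega)]
      simp only [Option.map_some, Option.some.injEq, one_mul]
      have := h (q - 1 - i) (by omega)
      rw [show q - 1 - (q - 1 - i) = i by omega] at this
      exact this.symm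
    · rw [List.getElem?_eq_none (by simpa using hi), List.getElem?_eq_none (by simpa using hi)]

/-- Running the stack on a word of shape `T_j`. -/
theorem run_PW (q : ℕ) (g : ℕ → Bool) (j : ℕ) : ∀ (o : ℕ) (s s' : List Bool)
    (w : List (Bool × Bool)), run s (PW q g j o ++ w) = some s' ↔
      (∀ a b, Chain q j o a b → ∀ t < q, g (b + (q - 1 - t)) = g (a + t)) ∧
      run s w = some s' := by
  induction j with
  | zero =>
      intro o s s' w
      rw [PW_zero, List.append_assoc]
      have e1 : (List.range' o q).map (fun i => (true, g i)) =
          ((List.range' o q).map g).map (fun b => (true, b)) := by simp [Function.comp_def]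
      have e2 : (List.range' (o + q) q).map (fun i => (false, g i)) =
          ((List.range' (o + q) q).map g).map (fun b => (false, b)) := by simp [Function.comp_def]
      rw [e1, e2, run_open, run_close _ _ (by simp), range'_reverse_map]
      constructor
      · rintro ⟨h1, h2⟩
        refine ⟨fun a b hab => ?_, h2⟩
        cases hab
        exact h1
      · rintro ⟨h1, h2⟩
        exact ⟨h1 _ _ (Chain.zero o), h2⟩
  | succ j ih =>
      intro o s s' w
      rw [PW_succ, List.append_assoc]
      have e1 : (List.range' o q).map (fun i => (true, g i)) =
          ((List.range' o q).map g).map (fun b => (true, b)) := by simp [Function.comp_def]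
      have e2 : (List.range' (o + q + 3 * len q j) q).map (fun i => (false, g i)) =
          ((List.range' (o + q + 3 * len q j) q).map g).map (fun b => (false, b)) := by
        simp [Function.comp_def]
      rw [e1, run_open, List.append_assoc, ih, List.append_assoc, ih, List.append_assoc, ih, e2,
        run_close _ _ (by simp), range'_reverse_map]
      constructor
      · rintro ⟨h1, h2, h3, h4, h5⟩
        refine ⟨fun a b hab => ?_, h5⟩
        cases hab with
        | top => exact h4
        | sub0 _ _ _ _ h => exact h1 a b h
        | sub1 _ _ _ _ h => exact h2 a b h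
        | sub2 _ _ _ _ h => exact h3 a b h
      · rintro ⟨h1, h2⟩
        exact ⟨fun a b h => h1 a b (Chain.sub0 j o a b h),
          fun a b h => h1 a b (Chain.sub1 j o a b h), fun a b h => h1 a b (Chain.sub2 j o a b h),
          h1 _ _ (Chain.top j o), h2⟩

lemma lab_chain {q : ℕ} (f : ℕ → Bool) {j o a b : ℕ} (h : Chain q j o a b) (s : ℕ) (hs : s < q) :
    lab q f j o (a + s) = f (a + s) ∧ lab q f j o (b + (q - 1 - s)) = f (a + s) := by
  induction h with
  | zero o =>
      refine ⟨by simp [lab, hs], ?_⟩
      simp only [lab]
      rw [if_neg (by omega), show o + (q - 1 - (o + q + (q - 1 - s) - (o + q))) = o + s by omega]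
  | top j o =>
      refine ⟨by simp [lab, hs], ?_⟩
      simp only [lab]
      rw [if_neg (by omega), if_neg (by omega), if_neg (by omega), if_neg (by omega),
        show o + (q - 1 - (o + q + 3 * len q j + (q - 1 - s) - (o + q + 3 * len q j))) = o + s
          by omega]
  | sub0 j o a b h ih =>
      obtain ⟨h1, h2, h3⟩ := h.bounds
      have e : ∀ i, o + q ≤ i → i < o + q + len q j →
          lab q f (j + 1) o i = lab q f j (o + q) i := by
        intro i h4 h5
        simp only [lab]
        rw [if_neg (by omega), if_pos (by omega)]
      rw [e _ (by omega) (by omega), e _ (by omega) (by omega)]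
      exact ih
  | sub1 j o a b h ih =>
      obtain ⟨h1, h2, h3⟩ := h.bounds
      have e : ∀ i, o + q + len q j ≤ i → i < o + q + 2 * len q j →
          lab q f (j + 1) o i = lab q f j (o + q + len q j) i := by
        intro i h4 h5
        simp only [lab]
        rw [if_neg (by omega), if_neg (by omega), if_pos (by omega)]
      rw [e _ (by omega) (by omega), e _ (by omega) (by omega)]
      exact ih
  | sub2 j o a b h ih =>
      obtain ⟨h1, h2, h3⟩ := h.bounds
      have e : ∀ i, o + q + 2 * len q j ≤ i → i < o + q + 3 * len q j →
          lab q f (j + 1) o i = lab q f j (o + q + 2 * len q j) i := by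
        intro i h4 h5
        simp only [lab]
        rw [if_neg (by omega), if_neg (by omega), if_neg (by omega), if_pos (by omega)]
      rw [e _ (by omega) (by omega), e _ (by omega) (by omega)]
      exact ih

lemma run_lab (q : ℕ) (f : ℕ → Bool) (j : ℕ) :
    run [] (PW q (lab q f j 0) j 0) = some [] := by
  have h := (run_PW q (lab q f j 0) j 0 [] [] []).2 ⟨fun a b hab t ht => ?_, rfl⟩
  · simpa using h
  · obtain ⟨h1, h2⟩ := lab_chain f hab t ht
    rw [h1, h2]

/-- The mixing lemma: if a mixture of two labelled words is a correct bracket expression, then the
labels agree on every chain whose two sides come from different words. -/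
theorem mixture {q j : ℕ} {f f' : ℕ → Bool} (X : ℕ → Prop) [DecidablePred X]
    {z : List (Bool × Bool)} (hz : z.length = len q j)
    (hzi : ∀ i < len q j, z[i]? = if X i then (PW q (lab q f j 0) j 0)[i]?
      else (PW q (lab q f' j 0) j 0)[i]?)
    (hrun : run [] z = some []) {a b : ℕ} (hab : Chain q j 0 a b)
    (hX : ((∀ s < q, X (a + s)) ∧ ∀ s < q, ¬ X (b + s)) ∨
      ((∀ s < q, ¬ X (a + s)) ∧ ∀ s < q, X (b + s))) :
    ∀ s < q, f (a + s) = f' (a + s) := by
  have hzw : z = PW q (fun i => if X i then lab q f j 0 i else lab q f' j 0 i) j 0 := by
    apply List.ext_getElem?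
    intro i
    by_cases hi : i < len q j
    · rw [hzi i hi]
      simp only [PW, List.getElem?_map]
      rw [List.getElem?_range' hi]
      simp only [Option.map_some, one_mul, Nat.zero_add]
      split_ifs <;> rfl
    · rw [List.getElem?_eq_none (by omega), List.getElem?_eq_none (by simpa using hi)]
  have h1 := (run_PW q (fun i => if X i then lab q f j 0 i else lab q f' j 0 i) j 0 [] [] []).1
    (by rw [List.append_nil, ← hzw]; exact hrun)
  intro s hs
  have h2 := h1.1 a b hab s hs
  obtain ⟨e1, e2⟩ := lab_chain f hab s hs
  obtain ⟨e3, e4⟩ := lab_chain f' hab s hs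
  rcases hX with ⟨h3, h4⟩ | ⟨h3, h4⟩
  · rw [if_neg (h4 _ (by omega)), if_pos (h3 s hs), e1, e4] at h2
    exact h2.symm
  · rw [if_pos (h4 _ (by omega)), if_neg (h3 s hs), e2, e3] at h2
    exact h2

end Pool.Agent.Helper80.CRL
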