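import Mathlib
import Pool.Agent.Helper80.CRL.Keys
import Pool.Agent.Helper80.CRL.Words

set_option autoImplicit false

namespace Pool.Agent.Helper80.CRL

open Relation

lemma chain_zip : ∀ (y : List (Bool × Bool)) (p : ℕ),
    List.IsChain (fun a b : ℕ × (Bool × Bool) => b.1 = a.1 + 1)
      (List.zip (List.range' p y.length) y)
  | [], p => by simp
  | [a], p => by simp
  | a :: b :: y, p => by
      have ih := chain_zip (b :: y) (p + 1)
      rw [List.length_cons, List.range'_succ, List.zip_cons_cons] at ih ⊢
      rw [List.length_cons, List.range'_succ, List.zip_cons_cons, List.isChain_cons_cons]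
      exact ⟨rfl, ih⟩

/-- the word with gaps `4^m, 4^m + 1, ..` and brackets `y` -/
def mkw (m : ℕ) (y : List (Bool × Bool)) : List Sym :=
  word (List.zip (List.range' (4 ^ m) y.length) y)

lemma ys_mkw (m : ℕ) (y : List (Bool × Bool)) : ys (mkw m y) = y := by
  rw [mkw, ys_word, List.map_snd_zip]
  simp

lemma mkw_mem {m : ℕ} {y : List (Bool × Bool)} (h0 : y ≠ []) (h1 : y.length < 4 ^ m)
    (h2 : run [] y = some []) : mkw m y ∈ Lang := by
  refine ⟨List.zip (List.range' (4 ^ m) y.length) y, ?_, rfl, chain_zip y _, ⟨m, ?_⟩, ?_⟩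
  · intro h
    apply h0
    have := congrArg List.length h
    simp only [List.length_zip, List.length_range', min_self, List.length_nil] at this
    exact List.length_eq_zero_iff.1 this
  · intro a ha
    have := (List.of_mem_zip ha).1
    rw [List.mem_range'_1] at this
    refine ⟨this.1, ?_⟩
    rw [pow_succ]
    omega
  · rw [List.map_snd_zip (by simp)]
    exact h2

lemma sum_range'_le (p M : ℕ) : (List.range' p M).sum ≤ M * (p + M) := by
  induction M generalizing p with
  | zero => simp
  | succ M ih =>
      rw [List.range'_succ, List.sum_cons]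
      have := ih (p + 1)
      nlinarith

lemma mkw_length (m : ℕ) (y : List (Bool × Bool)) :
    (mkw m y).length ≤ y.length * (4 ^ m + y.length + 1) := by
  rw [mkw, length_word, List.map_fst_zip (by simp)]
  simp only [List.length_zip, List.length_range', min_self]
  have := sum_range'_le (4 ^ m) y.length
  nlinarith

lemma exists_m (M : ℕ) (hM : 0 < M) : ∃ m, M < 4 ^ m ∧ 4 ^ m ≤ 4 * M := by
  refine ⟨Nat.log 4 M + 1, Nat.lt_pow_succ_log_self (by norm_num) M, ?_⟩
  rw [pow_succ]
  have := Nat.pow_log_le_self 4 (x := M) (by omega)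
  omega

variable {G : ProgrammedGrammar Sym}

/-- What we need to know about an intermediate state of a derivation of `x`. -/
structure Cut (G : ProgrammedGrammar Sym) (q d : ℕ) (x : List Sym) where
  l : List (Item G)
  r : G.Label
  a : ℕ
  b : ℕ
  past : ∃ r₀, ReflTransGen G.Step ([Sum.inl G.start], r₀) (form l, r)
  future : ∃ r₁, ReflTransGen TStep (l, r) ((x.map Sum.inr : List (Item G)), r₁)
  flat_eq : flat l = x
  ess_le : (ess l).length ≤ Nat.card G.N
  holes_le : (holes l).length ≤ x.length
  chain : Chain q d 0 a b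
  cut : ((∀ s < q, (exposed l)[a + s]? = some true) ∧
      ∀ s < q, ¬ (exposed l)[b + s]? = some true) ∨
    ((∀ s < q, ¬ (exposed l)[a + s]? = some true) ∧
      ∀ s < q, (exposed l)[b + s]? = some true)

theorem exists_cut (hG : G.NonErasing) (hL : G.language = Lang) {c q : ℕ}
    (hc : ∀ r, (G.rhs r).length ≤ c) (hcq : c < 2 * q) {x : List Sym} (hx : x ∈ Lang)
    (hlen : (ys x).length = len q (2 * Nat.card G.N)) (hlen2 : 2 ≤ (ys x).length) :
    Nonempty (Cut G q (2 * Nat.card G.N) x) := by
  obtain ⟨n, F, h0, hn, hs⟩ := exists_seq (G := G) (x := x) (by rw [hL]; exact hx)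
  have hfl : ∀ j, j ≤ n → flat (F j).1 = x := by
    intro j
    induction j with
    | zero => intro _; rw [h0]; simp
    | succ j ih => intro hj; rw [(hs j (by omega)).flat_eq, ih (by omega)]
  set d := 2 * Nat.card G.N with hd
  by_contra hcon
  have hno : ∀ t ≤ n, ∀ a b : ℕ, Chain q d 0 a b →
      ¬ ((∀ s < q, (exposed (F t).1)[a + s]? = some true) ∧
        ∀ s < q, ¬ (exposed (F t).1)[b + s]? = some true) ∧
      ¬ ((∀ s < q, ¬ (exposed (F t).1)[a + s]? = some true) ∧
        ∀ s < q, (exposed (F t).1)[b + s]? = some true) := by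
    intro t ht a b hab
    by_contra hcut
    apply hcon
    have hfut := future_of_seq hs t ht
    have hfut' : ReflTransGen TStep ((F t).1, (F t).2)
        ((x.map Sum.inr : List (Item G)), (F n).2) := by
      rw [← hn]; exact hfut
    refine ⟨⟨(F t).1, (F t).2, a, b, ⟨_, reach_of_seq h0 hs t ht⟩, ⟨_, hfut'⟩, hfl t ht,
      ess_length_le hG hL h0 hn hs hx t ht, ?_, hab, ?_⟩⟩
    · rw [← hfl t ht]
      exact holes_length_le _ (yield_ne_nil hG hfut (by rw [hn]; exact holes_map_inr x))
    · by_contra h
      apply hcut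
      push Not at h
      constructor
      · rintro ⟨h1, h2⟩
        obtain ⟨s, hs, h3⟩ := h.1 h1
        exact h2 s hs h3
      · rintro ⟨h1, h2⟩
        obtain ⟨s, hs, h3⟩ := h.2 h1
        exact h3 (h2 s hs)
  obtain ⟨t, ht, hbd⟩ := exists_time (q := q) (c := c) (d := d) (T := n) (M := (ys x).length) hcq
    (fun t i => (exposed (F t).1)[i]? = some true)
    (fun t ht i _ hi => exposed_mono (hs t ht) i hi)
    (by
      intro i hi
      rw [h0]
      simp only [exposed_cons, exposed_nil, List.append_nil, itY]
      rw [List.getElem?_replicate, if_pos hi]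
      intro h
      have h3 : (ys x).length ≤ 1 := of_decide_eq_true (Option.some.inj h)
      omega)
    (by
      intro i hi
      rw [hn, exposed_terms, List.getElem?_replicate, if_pos hi])
    (by
      intro t ht a b _ hab
      exact exposed_grow (hs t ht) hc a b hab)
    hno d 0 (by omega) (fun a b h => h)
  have h1 := bset_exposed (F t).1
  rw [hfl t ht, hlen] at h1
  rw [Nat.zero_add] at hbd
  have h2 := ess_length_le hG hL h0 hn hs hx t ht
  omega

/-- Two cuts with the same data force the labels to agree on the chain. -/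
theorem cut_agree (hL : G.language = Lang) {q d : ℕ} {f f' : ℕ → Bool} {x x' : List Sym}
    (hx : ys x = PW q (lab q f d 0) d 0) (hx' : ys x' = PW q (lab q f' d 0) d 0)
    (C : Cut G q d x) (C' : Cut G q d x') (hr : C.r = C'.r)
    (hE : keysE ((aholes 0 C.l).map key) = keysE ((aholes 0 C'.l).map key))
    (hN : (keysN ((aholes 0 C.l).map key)).Perm (keysN ((aholes 0 C'.l).map key))) :
    ∀ s < q, f (C.a + s) = f' (C.a + s) := by
  have hp := perm_of_keys hE hN
  obtain ⟨l'', h1, h2, h3⟩ := build (ys (flat C'.l)) C.l 0 (aholes 0 C'.l) hp.symm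
    (by
      intro h hh
      have := aholes_seg C'.l [] h (by simpa using hh)
      simpa using this)
  rw [aholes_fst] at h2
  obtain ⟨r₀, hpast⟩ := C.past
  obtain ⟨r₁, hfut⟩ := C'.future
  rw [← hr] at hfut
  have hz : flat l'' ∈ Lang := by
    rw [← hL]
    exact mix hpast hfut h1 h2
  have hlx : (ys (flat C.l)).length = len q d := by rw [C.flat_eq, hx, PW_length]
  have hlx' : (ys (flat C'.l)).length = len q d := by rw [C'.flat_eq, hx', PW_length]
  have hrun : run [] (ys (flat l'')) = some [] := by
    obtain ⟨L, _, hw, _, _, hrun⟩ := hz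
    rw [hw, ys_word]
    exact hrun
  classical
  refine mixture (q := q) (j := d) (f := f) (f' := f')
    (fun i => (exposed C.l)[i]? = some true) (z := ys (flat l'')) ?_ ?_ hrun C.chain C.cut
  · rw [h3, mixl_length _ _ _ (by omega), hlx]
  · intro i hi
    rw [h3, mixl_get _ _ _ _ (by omega) (by omega), Nat.zero_add, C.flat_eq, C'.flat_eq, hx, hx']

end Pool.Agent.Helper80.CRL
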