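import Mathlib
import Pool.Agent.Helper80.CRL.Core

set_option autoImplicit false

namespace Pool.Agent.Helper80.CRL

open Relation

lemma len_eq (q d : ℕ) : len q d = q * len 1 d := by
  induction d with
  | zero => simp [len]; ring
  | succ d ih => simp only [len]; rw [ih]; ring

lemma len_ge (q d : ℕ) : 2 * q ≤ len q d := by
  cases d with
  | zero => simp [len]
  | succ d => simp only [len]; omega

lemma exists_q (c A B : ℕ) : ∃ q, c < q ∧ A * (q + 1) ^ B < 2 ^ q := by
  have h := tendsto_pow_const_div_const_pow_of_one_lt B (r := (2 : ℝ)) (by norm_num)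
  have h1 : ∀ᶠ n : ℕ in Filter.atTop, (n : ℝ) ^ B / 2 ^ n < 1 / (2 * (A + 1)) :=
    h.eventually (gt_mem_nhds (by positivity))
  obtain ⟨n, hn1, hn2⟩ := (h1.and (Filter.eventually_ge_atTop (c + 2))).exists
  obtain ⟨q, rfl⟩ : ∃ q, n = q + 1 := ⟨n - 1, by omega⟩
  refine ⟨q, by omega, ?_⟩
  have h2 : ((q + 1 : ℕ) : ℝ) ^ B * (2 * (A + 1)) < 2 ^ (q + 1) := by
    rw [div_lt_div_iff₀ (by positivity) (by positivity)] at hn1
    linarith
  have h3 : (A : ℝ) * ((q + 1 : ℕ) : ℝ) ^ B < 2 ^ q := by
    have h4 : (0 : ℝ) ≤ ((q + 1 : ℕ) : ℝ) ^ B := by positivity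
    rw [pow_succ] at h2
    nlinarith
  exact_mod_cast h3

/-- encoding of bounded triples -/
def enc {α : Type} (W : ℕ) (e : α × ℕ × ℕ) : α × Fin (W + 1) × Fin (W + 1) :=
  (e.1, Fin.ofNat (W + 1) e.2.1, Fin.ofNat (W + 1) e.2.2)

lemma ofNat_inj {W a b : ℕ} (ha : a ≤ W) (hb : b ≤ W)
    (h : Fin.ofNat (W + 1) a = Fin.ofNat (W + 1) b) : a = b := by
  have h1 := congrArg Fin.val h
  simp only [Fin.ofNat_eq_cast, Fin.val_natCast] at h1
  rw [Nat.mod_eq_of_lt (by omega), Nat.mod_eq_of_lt (by omega)] at h1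
  exact h1

lemma enc_inj {α : Type} {W : ℕ} {e e' : α × ℕ × ℕ} (h : e.2.1 ≤ W ∧ e.2.2 ≤ W)
    (h' : e'.2.1 ≤ W ∧ e'.2.2 ≤ W) (he : enc W e = enc W e') : e = e' := by
  obtain ⟨a, b, c⟩ := e
  obtain ⟨a', b', c'⟩ := e'
  simp only [enc, Prod.mk.injEq] at he
  obtain ⟨h1, h2, h3⟩ := he
  have h4 : b = b' := ofNat_inj h.1 h'.1 h2
  have h5 : c = c' := ofNat_inj h.2 h'.2 h3
  rw [h1, h4, h5]

lemma list_eq_of_enc {α : Type} {W k : ℕ} {E E' : List (α × ℕ × ℕ)}
    (h : ∀ e ∈ E, e.2.1 ≤ W ∧ e.2.2 ≤ W) (h' : ∀ e ∈ E', e.2.1 ≤ W ∧ e.2.2 ≤ W)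
    (hk : E.length ≤ k) (hk' : E'.length ≤ k)
    (he : ∀ i : Fin k, (E[i.val]?).map (enc W) = (E'[i.val]?).map (enc W)) : E = E' := by
  apply List.ext_getElem?
  intro i
  by_cases hi : i < k
  · have h1 := he ⟨i, hi⟩
    simp only at h1
    cases h2 : E[i]? with
    | none =>
        cases h3 : E'[i]? with
        | none => rfl
        | some b => rw [h2, h3] at h1; simp at h1
    | some a =>
        cases h3 : E'[i]? with
        | none => rw [h2, h3] at h1; simp at h1
        | some b =>
            rw [h2, h3] at h1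
            simp only [Option.map_some, Option.some.injEq] at h1
            rw [enc_inj (h a (List.mem_of_getElem? h2)) (h' b (List.mem_of_getElem? h3)) h1]
  · rw [List.getElem?_eq_none (by omega), List.getElem?_eq_none (by omega)]

lemma card_bound {L k W : ℕ} (hW : 1 ≤ W) :
    L * (W ^ (k * 5) * ((k * (W * W) + 1) ^ k * W)) ≤ L * (k + 1) ^ k * W ^ (7 * k + 1) := by
  have h1 : k * (W * W) + 1 ≤ (k + 1) * (W * W) := by nlinarith
  calc L * (W ^ (k * 5) * ((k * (W * W) + 1) ^ k * W))
      ≤ L * (W ^ (k * 5) * (((k + 1) * (W * W)) ^ k * W)) := by gcongr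
    _ = L * (k + 1) ^ k * W ^ (7 * k + 1) := by
        rw [mul_pow, ← pow_two, ← pow_mul]; ring

variable {G : ProgrammedGrammar Sym}

/-- extension of a function by `false` -/
def extf {M : ℕ} (f : Fin M → Bool) (i : ℕ) : Bool := if h : i < M then f ⟨i, h⟩ else false

lemma extf_apply {M : ℕ} (f : Fin M → Bool) (i : Fin M) : extf f i.val = f i := by
  simp [extf]

theorem two_pow_le (hG : G.NonErasing) (hL : G.language = Lang) {c : ℕ}
    (hc : ∀ r, (G.rhs r).length ≤ c) {q : ℕ} (hq : c < q) :
    2 ^ q ≤ Nat.card G.Label * (Nat.card G.N + 1) ^ (Nat.card G.N) *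
      (6 * (len q (2 * Nat.card G.N) + 1) ^ 2 + 1) ^ (7 * Nat.card G.N + 1) := by
  classical
  have := G.finN
  have := G.finLabel
  have := Fintype.ofFinite G.N
  have := Fintype.ofFinite G.Label
  set k := Nat.card G.N with hk
  set d := 2 * k with hd
  set M := len q d with hM
  have hM2 : 2 * q ≤ M := len_ge q d
  have hM0 : 0 < M := by omega
  set W := 6 * (M + 1) ^ 2 with hW
  have hMW : M ≤ W := by rw [hW]; nlinarith
  obtain ⟨m, hm1, hm2⟩ := exists_m M hM0
  -- the words
  let x : (Fin M → Bool) → List Sym := fun f => mkw m (PW q (lab q (extf f) d 0) d 0)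
  have hys : ∀ f, ys (x f) = PW q (lab q (extf f) d 0) d 0 := fun f => ys_mkw _ _
  have hx : ∀ f, x f ∈ Lang := by
    intro f
    refine mkw_mem ?_ ?_ (run_lab q _ d)
    · intro h
      have h1 := congrArg List.length h
      rw [PW_length] at h1
      simp only [List.length_nil] at h1
      omega
    · rw [PW_length]; exact hm1
  have hxl : ∀ f, (x f).length ≤ W := by
    intro f
    refine (mkw_length _ _).trans ?_
    rw [PW_length, ← hM, hW]
    nlinarith
  have hC : ∀ f, Nonempty (Cut G q d (x f)) := by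
    intro f
    refine exists_cut hG hL hc (by omega) (hx f) (by rw [hys, PW_length]) ?_
    rw [hys, PW_length, ← hM]
    omega
  let C : ∀ f, Cut G q d (x f) := fun f => (hC f).some
  let K : (Fin M → Bool) → List (G.N × (Option (Bool × Bool) ⊕ ℕ × ℕ)) :=
    fun f => (aholes 0 (C f).l).map key
  have hKl : ∀ f, (K f).length ≤ W := by
    intro f
    have h1 : (K f).length = (holes (C f).l).length := by
      rw [← aholes_fst 0 (C f).l]
      simp [K]
    rw [h1]
    exact (C f).holes_le.trans (hxl f)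
  have hKE : ∀ f, (keysE (K f)).length ≤ k := by
    intro f
    rw [keysE_length]
    exact (C f).ess_le
  have hKb : ∀ f, ∀ e ∈ keysE (K f), e.2.1 ≤ W ∧ e.2.2 ≤ W := by
    intro f e he
    have h1 := keysE_bound 0 (C f).l e he
    rw [(C f).flat_eq, hys, PW_length, ← hM] at h1
    constructor <;> omega
  -- the data
  let D := G.Label × ((G.N × Option (Bool × Bool)) → Fin (W + 1)) ×
    (Fin k → Option (G.N × Fin (W + 1) × Fin (W + 1))) × Fin (W + 1)
  let data : (Fin M → Bool) → D := fun f =>
    ((C f).r, fun p => Fin.ofNat (W + 1) ((keysN (K f)).count p),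
      fun i => ((keysE (K f))[i.val]?).map (enc W), Fin.ofNat (W + 1) (C f).a)
  have haM : ∀ f, (C f).a + q ≤ M := by
    intro f
    have h1 := (C f).chain.bounds
    rw [← hM] at h1
    omega
  have hdata : ∀ f f', data f = data f' → (C f).a = (C f').a ∧
      ∀ s < q, extf f ((C f).a + s) = extf f' ((C f).a + s) := by
    intro f f' h
    have h1 : (C f).r = (C f').r := congrArg (fun z : D => z.1) h
    have h2 : (fun p => Fin.ofNat (W + 1) ((keysN (K f)).count p)) =
      (fun p => Fin.ofNat (W + 1) ((keysN (K f')).count p)) := congrArg (fun z : D => z.2.1) h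
    have h3 : (fun i : Fin k => ((keysE (K f))[i.val]?).map (enc W)) =
      (fun i : Fin k => ((keysE (K f'))[i.val]?).map (enc W)) :=
      congrArg (fun z : D => z.2.2.1) h
    have h4 : Fin.ofNat (W + 1) (C f).a = Fin.ofNat (W + 1) (C f').a :=
      congrArg (fun z : D => z.2.2.2) h
    have ha : (C f).a = (C f').a := by
      have h5 := haM f
      have h6 := haM f'
      exact ofNat_inj (by omega) (by omega) h4
    refine ⟨ha, ?_⟩
    refine cut_agree hL (hys f) (hys f') (C f) (C f') h1 ?_ ?_
    · refine list_eq_of_enc (hKb f) (hKb f') (hKE f) (hKE f') ?_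
      intro i
      exact congrFun h3 i
    · rw [List.perm_iff_count]
      intro p
      have h5 := congrFun h2 p
      refine ofNat_inj ?_ ?_ h5
      · exact (List.count_le_length.trans (keysN_length _)).trans (hKl f)
      · exact (List.count_le_length.trans (keysN_length _)).trans (hKl f')
  -- the injection
  let Φ : (Fin M → Bool) × (Fin q → Bool) → D × (Fin M → Bool) := fun p =>
    (data p.1, fun i => if (C p.1).a ≤ i.val then
      xor (p.1 i) (extf p.2 (i.val - (C p.1).a)) else p.1 i)
  have hΦ : Function.Injective Φ := by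
    rintro ⟨f, τ⟩ ⟨f', τ'⟩ h
    have h1 : data f = data f' := congrArg Prod.fst h
    have h2 : (fun i : Fin M => if (C f).a ≤ i.val then
        xor (f i) (extf τ (i.val - (C f).a)) else f i) =
      (fun i : Fin M => if (C f').a ≤ i.val then
        xor (f' i) (extf τ' (i.val - (C f').a)) else f' i) := congrArg Prod.snd h
    obtain ⟨ha, h3⟩ := hdata f f' h1
    have hff : f = f' := by
      funext i
      have h4 := congrFun h2 i
      rw [← ha] at h4
      by_cases hi : (C f).a ≤ i.val
      · by_cases hi2 : i.val < (C f).a + q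
        · have h5 := h3 (i.val - (C f).a) (by omega)
          rw [show (C f).a + (i.val - (C f).a) = i.val by omega, extf_apply, extf_apply] at h5
          exact h5
        · rw [if_pos hi, if_pos hi] at h4
          have e1 : extf τ (i.val - (C f).a) = false := by
            unfold extf; rw [dif_neg (by omega)]
          have e2 : extf τ' (i.val - (C f).a) = false := by
            unfold extf; rw [dif_neg (by omega)]
          rw [e1, e2] at h4
          simpa using h4
      · rw [if_neg hi, if_neg hi] at h4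
        exact h4
    subst hff
    have hττ : τ = τ' := by
      funext s
      have h5 := haM f
      have h4 := congrFun h2 ⟨(C f).a + s.val, by omega⟩
      dsimp only at h4
      rw [if_pos (by omega), if_pos (by omega),
        show (C f).a + s.val - (C f).a = s.val by omega, extf_apply, extf_apply] at h4
      exact Bool.xor_right_inj.1 h4
    rw [hττ]
  have hcard := Fintype.card_le_of_injective Φ hΦ
  have hcardD : Fintype.card D = Nat.card G.Label * ((W + 1) ^ (k * 5) *
      ((k * ((W + 1) * (W + 1)) + 1) ^ k * (W + 1))) := by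
    have e1 : Fintype.card G.Label = Nat.card G.Label := Nat.card_eq_fintype_card.symm
    have e2 : Fintype.card G.N = k := Nat.card_eq_fintype_card.symm
    simp only [D, Fintype.card_prod, Fintype.card_fun, Fintype.card_option, Fintype.card_fin,
      Fintype.card_bool, e1, e2]
  rw [Fintype.card_prod, Fintype.card_prod, Fintype.card_fun, Fintype.card_fun,
    Fintype.card_fin, Fintype.card_fin, Fintype.card_bool, hcardD, mul_comm (2 ^ M)] at hcard
  have h5 := Nat.le_of_mul_le_mul_right hcard (by positivity)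
  exact h5.trans (card_bound (by omega))

theorem not_generated (G : ProgrammedGrammar Sym) (hG : G.NonErasing) : G.language ≠ Lang := by
  intro hL
  have := G.finLabel
  obtain ⟨c, hc⟩ : ∃ c, ∀ r, (G.rhs r).length ≤ c := by
    have := Fintype.ofFinite G.Label
    exact ⟨Finset.univ.sup fun r => (G.rhs r).length, fun r =>
      Finset.le_sup (f := fun r => (G.rhs r).length) (Finset.mem_univ r)⟩
  set k := Nat.card G.N with hk
  set B := 7 * k + 1 with hB
  set Q := len 1 (2 * k) with hQ
  obtain ⟨q, hq, hlt⟩ := exists_q c (Nat.card G.Label * (k + 1) ^ k * (7 * (Q + 1) ^ 2) ^ B) (2 * B)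
  have h1 := two_pow_le hG hL hc hq
  rw [← hk, ← hB, len_eq, ← hQ] at h1
  have h2 : 6 * (q * Q + 1) ^ 2 + 1 ≤ 7 * (Q + 1) ^ 2 * (q + 1) ^ 2 := by
    have h3 : q * Q + 1 ≤ (Q + 1) * (q + 1) := by nlinarith
    have h4 : 1 ≤ (Q + 1) * (q + 1) := Nat.succ_le_of_lt (by positivity)
    calc 6 * (q * Q + 1) ^ 2 + 1 ≤ 6 * ((Q + 1) * (q + 1)) ^ 2 + ((Q + 1) * (q + 1)) ^ 2 := by
          gcongr
          exact Nat.one_le_pow _ _ h4
      _ = _ := by ring
  have h3 : (6 * (q * Q + 1) ^ 2 + 1) ^ B ≤ (7 * (Q + 1) ^ 2) ^ B * (q + 1) ^ (2 * B) := by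
    calc _ ≤ (7 * (Q + 1) ^ 2 * (q + 1) ^ 2) ^ B := Nat.pow_le_pow_left h2 B
      _ = _ := by rw [mul_pow, ← pow_mul]
  have h4 := h1.trans (Nat.mul_le_mul_left _ h3)
  rw [← mul_assoc] at h4
  omega

end Pool.Agent.Helper80.CRL
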