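import Mathlib
import Pool.Agent.Helper80.CRL.Count

set_option autoImplicit false

namespace Pool.Agent.Helper80.CRL

open Relation

variable {T T' : Type} (j : T → T')

open Classical in
/-- translating a letter: terminals outside the range of `j` become nonterminals -/
noncomputable def tr {N : Type} (j : T → T') : N ⊕ T' → (N ⊕ T') ⊕ T
  | Sum.inl A => Sum.inl (Sum.inl A)
  | Sum.inr t => if h : ∃ s, j s = t then Sum.inr h.choose else Sum.inl (Sum.inr t)

lemma tr_j {N : Type} (hj : Function.Injective j) (s : T) :
    tr (N := N) j (Sum.inr (j s)) = Sum.inr s := by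
  have h : ∃ s', j s' = j s := ⟨s, rfl⟩
  unfold tr
  simp only
  rw [dif_pos h]
  exact congrArg _ (hj h.choose_spec)

lemma tr_inj {N : Type} : Function.Injective (tr (N := N) j) := by
  intro a b h
  cases a with
  | inl A =>
      cases b with
      | inl B => simpa [tr] using h
      | inr t =>
          unfold tr at h
          simp only at h
          split_ifs at h with h1
          simp at h
  | inr s =>
      cases b with
      | inl B =>
          unfold tr at h
          simp only at h
          split_ifs at h with h1
          simp at h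
      | inr t =>
          unfold tr at h
          simp only at h
          split_ifs at h with h1 h2 h3
          · rw [Sum.inr.injEq] at h
            rw [← h1.choose_spec, ← h2.choose_spec, h]
          · simpa using h

/-- the grammar over the smaller alphabet -/
noncomputable def pull [Finite T'] (G : ProgrammedGrammar T') : ProgrammedGrammar T where
  N := G.N ⊕ T'
  finN := by have := G.finN; infer_instance
  Label := G.Label
  finLabel := G.finLabel
  start := Sum.inl G.start
  lhs := fun r => Sum.inl (G.lhs r)
  rhs := fun r => (G.rhs r).map (tr j)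
  succ := G.succ
  fail := G.fail

lemma pull_step [Finite T'] (G : ProgrammedGrammar T') {p p' : List (G.N ⊕ T') × G.Label}
    (h : G.Step p p') :
    (pull j G).Step (p.1.map (tr j), p.2) (p'.1.map (tr j), p'.2) := by
  rcases h with ⟨u, v, h1, h2, h3⟩ | ⟨h1, h2, h3⟩
  · left
    have e1 : p.1.map (tr j) = u.map (tr j) ++ [tr j (Sum.inl (G.lhs p.2))] ++ v.map (tr j) := by
      rw [h1, List.map_append, List.map_append]; rfl
    have e2 : p'.1.map (tr j) = u.map (tr j) ++ (G.rhs p.2).map (tr j) ++ v.map (tr j) := by
      rw [h2, List.map_append, List.map_append]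
    exact ⟨u.map (tr j), v.map (tr j), e1, e2, h3⟩
  · right
    refine ⟨?_, by simp only [h2], h3⟩
    intro hc
    apply h1
    obtain ⟨a, ha, hb⟩ := List.mem_map.1 hc
    have : a = Sum.inl (G.lhs p.2) := tr_inj j hb
    rw [← this]
    exact ha

lemma pull_step' [Finite T'] (G : ProgrammedGrammar T')
    {p p' : List ((G.N ⊕ T') ⊕ T) × G.Label} (h : (pull j G).Step p p')
    (x : List (G.N ⊕ T')) (hx : p.1 = x.map (tr j)) :
    ∃ y, p'.1 = y.map (tr j) ∧ G.Step (x, p.2) (y, p'.2) := by
  rcases h with ⟨u, v, h1, h2, h3⟩ | ⟨h1, h2, h3⟩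
  · have h4 : x.map (tr j) = u ++ [Sum.inl ((pull j G).lhs p.2)] ++ v := hx.symm.trans h1
    obtain ⟨xu', xv, e1, e2, e3⟩ := List.map_eq_append_iff.1 h4
    obtain ⟨xu, xm, e4, e5, e6⟩ := List.map_eq_append_iff.1 e2
    have e7 : xm = [Sum.inl (G.lhs p.2)] := by
      have : xm.map (tr j) = [Sum.inl (G.lhs p.2)].map (tr j) := by rw [e6]; rfl
      exact (List.map_injective_iff.2 (tr_inj j)) this
    refine ⟨xu ++ G.rhs p.2 ++ xv, ?_, ?_⟩
    · rw [h2, List.map_append, List.map_append, e5, e3]
      rfl
    · left
      exact ⟨xu, xv, by simp only [e1, e4, e7], rfl, h3⟩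
  · refine ⟨x, by rw [h2, hx], ?_⟩
    right
    refine ⟨?_, rfl, h3⟩
    intro hc
    apply h1
    rw [hx]
    exact List.mem_map.2 ⟨_, hc, rfl⟩

lemma map_tr_inr {N : Type} (hj : Function.Injective j) (z : List T) :
    ((z.map j).map Sum.inr).map (tr (N := N) j) = z.map Sum.inr := by
  rw [List.map_map, List.map_map]
  apply List.map_congr_left
  intro s _
  exact tr_j j hj s

lemma pull_language [Finite T'] (hj : Function.Injective j) (G : ProgrammedGrammar T') :
    (pull j G).language = {z | z.map j ∈ G.language} := by
  ext z
  constructor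
  · rintro ⟨r, r', h⟩
    refine ⟨r, r', ?_⟩
    have key : ∀ p : List ((G.N ⊕ T') ⊕ T) × G.Label,
        ReflTransGen (pull j G).Step ([Sum.inl (pull j G).start], r) p →
        ∃ y, p.1 = y.map (tr j) ∧ ReflTransGen G.Step ([Sum.inl G.start], r) (y, p.2) := by
      intro p hp
      induction hp with
      | refl => exact ⟨[Sum.inl G.start], rfl, ReflTransGen.refl⟩
      | tail h1 h2 ih =>
          obtain ⟨y, e1, e2⟩ := ih
          obtain ⟨y', e3, e4⟩ := pull_step' j G h2 y e1
          exact ⟨y', e3, e2.tail e4⟩
    obtain ⟨y, e1, e2⟩ := key _ h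
    have e3 : y = (z.map j).map Sum.inr := by
      apply (List.map_injective_iff.2 (tr_inj (N := G.N) j))
      rw [map_tr_inr j hj]
      exact e1.symm
    rw [← e3]
    exact e2
  · rintro ⟨r, r', h⟩
    refine ⟨r, r', ?_⟩
    have key : ∀ p : List (G.N ⊕ T') × G.Label,
        ReflTransGen G.Step ([Sum.inl G.start], r) p →
        ReflTransGen (pull j G).Step ([Sum.inl (pull j G).start], r) (p.1.map (tr j), p.2) := by
      intro p hp
      induction hp with
      | refl => exact ReflTransGen.refl
      | tail h1 h2 ih => exact ih.tail (pull_step j G h2)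
    have h1 := key _ h
    have h2 := map_tr_inr (N := G.N) j hj z
    have h3 : ∀ w : List ((pull j G).N ⊕ T), ((z.map j).map Sum.inr).map (tr j) = w →
        ReflTransGen (pull j G).Step ([Sum.inl (pull j G).start], r) (w, r') := by
      rintro w rfl
      exact h1
    exact h3 _ h2

theorem not_generated' {T' : Type} [Finite T'] (j : Sym → T') (hj : Function.Injective j)
    (G : ProgrammedGrammar T') (hG : G.NonErasing) : G.language ≠ (List.map j) '' Lang := by
  intro h
  apply not_generated (pull j G)
  · intro r hr
    apply hG r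
    exact List.map_eq_nil_iff.1 hr
  · rw [pull_language j hj, h]
    ext z
    constructor
    · rintro ⟨w, hw, e⟩
      have : w = z := (List.map_injective_iff.2 hj) e
      rw [← this]
      exact hw
    · intro hz
      exact ⟨z, hz, rfl⟩

lemma nil_not_mem : ([] : List Sym) ∉ Lang := by
  rintro ⟨l, hl, hw, -⟩
  cases l with
  | nil => exact hl rfl
  | cons a l =>
      obtain ⟨p, y⟩ := a
      have := congrArg List.length hw
      simp [word] at this

end Pool.Agent.Helper80.CRL
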